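import Pool.Agent.Lib.PosetForcing.CardDefs

set_option autoImplicit false

/-! The notions of the problem written inside a structure `(M, mem)`; all quantifiers range
over `M`. -/

open Pool.Agent.Lib.PosetForcing

namespace Pool.Agent.P.MP_d1514d_gt

universe v

/-- the parameters: `ω` and the ordered field of real numbers -/
structure Ctx (M : Type v) : Type v where
  /-- the set of natural numbers -/
  w : M
  /-- the set of real numbers -/
  R : M
  /-- addition -/
  add : M
  /-- multiplication -/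
  mul : M
  /-- the order -/
  le : M
  /-- the real number zero -/
  zero : M
  /-- the real number one -/
  one : M

variable {M : Type v} (mem : M → M → Prop) (C : Ctx M)

/-- `((x, y), z) ∈ f` -/
def App2 (f x y z : M) : Prop := ∃ p, IsPair mem p x y ∧ App mem f p z

/-- `f` is a binary operation on `R` -/
def IsOp (f R : M) : Prop :=
  (∀ x y z, App2 mem f x y z → mem x R ∧ mem y R ∧ mem z R) ∧
  (∀ x, mem x R → ∀ y, mem y R → ∃ z, App2 mem f x y z) ∧
  ∀ x y z z', App2 mem f x y z → App2 mem f x y z' → z = z'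

/-- `x + y = z` -/
def RAdd (x y z : M) : Prop := App2 mem C.add x y z

/-- `x * y = z` -/
def RMul (x y z : M) : Prop := App2 mem C.mul x y z

/-- `x ≤ y` -/
def RLe (x y : M) : Prop := App mem C.le x y

/-- `x < y` -/
def RLt (x y : M) : Prop := RLe mem C x y ∧ x ≠ y

/-- `r` is the least upper bound of the real numbers satisfying `Φ` -/
def IsSup (Φ : M → Prop) (r : M) : Prop :=
  mem r C.R ∧ (∀ x, Φ x → RLe mem C x r) ∧
    ∀ y, mem y C.R → (∀ x, Φ x → RLe mem C x y) → RLe mem C r y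

/-- `(R, add, mul, le, zero, one)` is a complete ordered field -/
structure IsReals : Prop where
  add_op : IsOp mem C.add C.R
  mul_op : IsOp mem C.mul C.R
  le_mem : ∀ x y, RLe mem C x y → mem x C.R ∧ mem y C.R
  zero_mem : mem C.zero C.R
  one_mem : mem C.one C.R
  zero_ne_one : C.zero ≠ C.one
  add_comm : ∀ x y z, RAdd mem C x y z → RAdd mem C y x z
  add_assoc : ∀ x y z a b c, RAdd mem C x y a → RAdd mem C a z c → RAdd mem C y z b →
    RAdd mem C x b c
  add_zero : ∀ x, mem x C.R → RAdd mem C x C.zero x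
  add_neg : ∀ x, mem x C.R → ∃ y, RAdd mem C x y C.zero
  mul_comm : ∀ x y z, RMul mem C x y z → RMul mem C y x z
  mul_assoc : ∀ x y z a b c, RMul mem C x y a → RMul mem C a z c → RMul mem C y z b →
    RMul mem C x b c
  mul_one : ∀ x, mem x C.R → RMul mem C x C.one x
  mul_inv : ∀ x, mem x C.R → x ≠ C.zero → ∃ y, RMul mem C x y C.one
  distrib : ∀ x y z a b c d, RAdd mem C y z a → RMul mem C x a b → RMul mem C x y c →
    RMul mem C x z d → RAdd mem C c d b
  le_refl : ∀ x, mem x C.R → RLe mem C x x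
  le_antisymm : ∀ x y, RLe mem C x y → RLe mem C y x → x = y
  le_trans : ∀ x y z, RLe mem C x y → RLe mem C y z → RLe mem C x z
  le_total : ∀ x, mem x C.R → ∀ y, mem y C.R → RLe mem C x y ∨ RLe mem C y x
  add_le : ∀ x y z a b, RLe mem C x y → RAdd mem C x z a → RAdd mem C y z b → RLe mem C a b
  mul_nonneg : ∀ x y z, RLe mem C C.zero x → RLe mem C C.zero y → RMul mem C x y z →
    RLe mem C C.zero z
  complete : ∀ A, IsSub mem A C.R → (∃ x, mem x A) →
    (∃ b, mem b C.R ∧ ∀ x, mem x A → RLe mem C x b) → ∃ r, IsSup mem C (fun x => mem x A) r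

/-- `A` is finite -/
def IsFin (A : M) : Prop := ∃ n, mem n C.w ∧ LeCard mem A n

/-- `T` is a topology on `S` -/
def IsTopOn (S T : M) : Prop :=
  (∀ V, mem V T → IsSub mem V S) ∧ mem S T ∧
  (∀ V W X, mem V T → mem W T → (∀ x, mem x X ↔ mem x V ∧ mem x W) → mem X T) ∧
  ∀ F X, IsSub mem F T → (∀ x, mem x X ↔ ∃ V, mem V F ∧ mem x V) → mem X T

/-- `X ⊆ R` and `T` is the subspace topology of `X` -/
def IsRealSet (X T : M) : Prop :=
  IsSub mem X C.R ∧ ∀ V, mem V T ↔ IsSub mem V X ∧ ∀ x, mem x V →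
    ∃ a b, RLt mem C a x ∧ RLt mem C x b ∧
      ∀ y, mem y X → RLt mem C a y → RLt mem C y b → mem y V

/-- `S = X × Y` and `T` is the product of the topologies `TX` and `TY` -/
def IsProd (X TX Y TY S T : M) : Prop :=
  (∀ p, mem p S ↔ ∃ x y, IsPair mem p x y ∧ mem x X ∧ mem y Y) ∧
  ∀ W, mem W T ↔ IsSub mem W S ∧ ∀ x y, App mem W x y →
    ∃ A B, mem A TX ∧ mem B TY ∧ mem x A ∧ mem y B ∧
      ∀ x' y', mem x' A → mem y' B → App mem W x' y'

/-- `f` is a sequence of open covers of the space `(S, T)` -/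
def IsCovers (S T f : M) : Prop :=
  IsFunOn mem f C.w fun F => IsSub mem F T ∧ ∀ x, mem x S → ∃ V, mem V F ∧ mem x V

/-- `g` is a sequence of finite sets with `g(n) ⊆ f(n)` -/
def IsChoice (f g : M) : Prop :=
  IsFunOn mem g C.w (IsFin mem C) ∧ ∀ n F G, App mem f n F → App mem g n G → IsSub mem G F

/-- `x ∈ ⋃ g(n)` -/
def InStep (g n x : M) : Prop := ∃ G V, App mem g n G ∧ mem V G ∧ mem x V

/-- the space `(S, T)` is Menger -/
def Menger (S T : M) : Prop :=
  ∀ f, IsCovers mem C S T f → ∃ g, IsChoice mem C f g ∧ ∀ x, mem x S → ∃ n, InStep mem g n x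

/-- the space `(S, T)` is Scheepers: each finite subset of `S` lies in some `⋃ g(n)` -/
def Scheepers (S T : M) : Prop :=
  ∀ f, IsCovers mem C S T f → ∃ g, IsChoice mem C f g ∧
    ∀ A, IsFin mem C A → IsSub mem A S → ∃ n, mem n C.w ∧ ∀ x, mem x A → InStep mem g n x

/-- the space `(S, T)` is `u`-Menger: `{n : x ∈ ⋃ g(n)} ∈ u` for each point `x` -/
def UMenger (u S T : M) : Prop :=
  ∀ f, IsCovers mem C S T f → ∃ g, IsChoice mem C f g ∧
    ∀ x, mem x S → ∃ B, mem B u ∧ ∀ n, mem n B ↔ InStep mem g n x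

/-- `u` is a free ultrafilter on `ω` -/
def IsFreeUltra (u : M) : Prop :=
  (∀ A, mem A u → IsSub mem A C.w ∧ ¬ IsFin mem C A) ∧
  (∀ A B, mem A u → IsSub mem A B → IsSub mem B C.w → mem B u) ∧
  (∀ A B X, mem A u → mem B u → (∀ x, mem x X ↔ mem x A ∧ mem x B) → mem X u) ∧
  ∀ A B, IsSub mem A C.w → (∀ x, mem x B ↔ mem x C.w ∧ ¬ mem x A) → mem A u ∨ mem B u

end Pool.Agent.P.MP_d1514d_gt
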