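import Pool.Agent.P.MP_d1514d_gt.Poset

set_option autoImplicit false

/-! Adding a point to a condition. -/

open Set Filter

namespace Pool.Agent.P.MP_d1514d_gt

theorem slots_univ (B : Set ℕ) (a k : ℕ) : Slots univ B a a k := by
  induction k with
  | zero => exact le_rfl
  | succ k ih => exact ⟨a, le_rfl, fun s _ => ⟨∅, empty_subset _, trivial⟩, ih⟩

theorem PP.exists_enum (p : PP) : ∃ f : ℕ → Prom, (∀ j, Keeps p.D (f j)) ∧
    ∀ π ∈ p.Pr, ∃ᶠ j in atTop, f j = π := by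
  let π0 : Prom := ⟨id, fun _ => univ, fun _ _ _ _ _ => trivial⟩
  obtain ⟨f, hf⟩ := (p.cP.insert π0).exists_eq_range (insert_nonempty _ _)
  refine ⟨fun j => f j.unpair.1, fun j => ?_, fun π hπ => ?_⟩
  · have : f j.unpair.1 ∈ insert π0 p.Pr := hf ▸ mem_range_self _
    rcases this with h | h
    · beta_reduce
      rw [h]
      exact fun E _ _ a k => ⟨a, fun _ _ => trivial, slots_univ _ a k⟩
    · exact p.keeps _ h
  · obtain ⟨i, hi⟩ : π ∈ range f := hf ▸ mem_insert_of_mem _ hπ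
    exact frequently_atTop.2 fun b => ⟨Nat.pair i b, Nat.right_le_pair _ _, by simp [hi]⟩

theorem step {D : Set Pt} {π : Prom} (hπ : Keeps D π) {E : Set Pt} (hE : E ⊆ D) (hf : E.Finite)
    (hr : (free E).Infinite) (g : ℕ → ℕ) (k : ℕ) (s : Set ℕ) (a : ℕ) (hs : s ⊆ Iio a) :
    ∃ t a', a < a' ∧ t ⊆ free E ∩ Ico a a' ∧ t.Nonempty ∧ (∀ m ∈ t, g m ≤ a') ∧
      (∃ n d, (∀ z ∈ E, z.y ∈ π.G n) ∧ Slots (π.G n) (free E) a d k ∧ d ≤ π.h n ∧ d ≤ a' ∧
        (∀ x, Agree a' (s ∪ t) x → x ∈ π.G n) ∧ ∀ m ∈ t, d ≤ m) ∧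
      ∃ m₁ ∈ free E, a ≤ m₁ ∧ m₁ < a' ∧ ∀ m ∈ t, m ≤ m₁ → g m ≤ m₁ := by
  obtain ⟨n, h1, d, h2, h3, h4⟩ := hπ E hE hf a (k + 1)
  obtain ⟨t, ht, h5⟩ := h3 s hs
  have had := h4.le
  obtain ⟨b, hb⟩ := ((finite_Iio (π.h n)).image g).bddAbove
  obtain ⟨m₁, m1, m2⟩ := hr.exists_gt (b + π.h n)
  obtain ⟨m₂, m3, m4⟩ := hr.exists_gt m₁
  have hg : ∀ m ∈ t, g m ≤ b := fun m hm => hb (mem_image_of_mem g (ht hm).2.2)
  refine ⟨insert m₂ t, m₂ + 1 + g m₂, by omega, ?_, insert_nonempty _ _, ?_,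
    ⟨n, d, h1, h4, h2, by omega, fun x hx => π.det n _ _ (fun i hi => ?_) h5, ?_⟩,
    m₁, m1, by omega, by omega, ?_⟩
  · rintro x (rfl | hx)
    · exact ⟨m3, by simp only [mem_Ico]; omega⟩
    · have := (ht hx).2
      simp only [mem_Ico] at this
      exact ⟨(ht hx).1, by simp only [mem_Ico]; omega⟩
  · rintro x (rfl | hx)
    · omega
    · have := hg x hx; omega
  · rw [← hx i (by omega)]
    simp only [mem_union, mem_insert_iff]
    have : i ≠ m₂ := by omega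
    tauto
  · rintro x (rfl | hx)
    · omega
    · exact (ht hx).2.1
  · rintro x (rfl | hx) h
    · omega
    · have := hg x hx; omega

theorem PP.exists_ext (p : PP) (g0 H : ℕ → ℕ) {E0 : Set Pt} (hE0 : E0 ⊆ p.D) (hf0 : E0.Finite)
    (c : ℕ) {s0 : Set ℕ} (hs0 : s0 ⊆ Iio c) :
    ∃ q ≤ p, ∃ t ∈ q.D, (∀ m, g0 m ≤ t.g m) ∧ (∀ n, (t.e ∩ Iio (H n)).ncard ≤ n) ∧
      s0 ⊆ t.y ∧ t.y \ s0 ⊆ free E0 ∩ Ici c := by
  obtain ⟨g, g1, g2, g3⟩ := exists_dom p.cD g0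
  obtain ⟨E', e1, e2, e3⟩ := exists_exhaust p.cD
  obtain ⟨f, f1, f2⟩ := p.exists_enum
  let E : ℕ → Set Pt := fun j => E0 ∪ E' j
  have hE : ∀ j, E j ⊆ p.D := fun j => union_subset hE0 (e1 j)
  have hEf : ∀ j, (E j).Finite := fun j => hf0.union (e2 j)
  choose! T A hA hT hne hg hP hR using fun j => step (f1 j) (hE j) (hEf j)
    (p.room _ (hE j) (hEf j)) g j
  obtain ⟨b, hb⟩ := ((finite_Iio c).image g).bddAbove
  let st : ℕ → Set ℕ × ℕ := fun j => Nat.rec (s0, c + b)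
    (fun j z => (z.1 ∪ T j z.1 z.2, A j z.1 z.2)) j
  let s : ℕ → Set ℕ := fun j => (st j).1
  let a : ℕ → ℕ := fun j => (st j).2
  let t : ℕ → Set ℕ := fun j => T j (s j) (a j)
  have es : ∀ j, s (j + 1) = s j ∪ t j := fun j => rfl
  have ea : ∀ j, a (j + 1) = A j (s j) (a j) := fun j => rfl
  have inv : ∀ j, s j ⊆ Iio (a j) ∧ ∀ m ∈ s j, g m ≤ a j := by
    intro j
    induction j with
    | zero =>
      exact ⟨fun m hm => lt_of_lt_of_le (hs0 hm) (Nat.le_add_right _ _), fun m hm =>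
        (hb (mem_image_of_mem g (hs0 hm))).trans (Nat.le_add_left _ _)⟩
    | succ j ih =>
      have h1 := hA j _ _ ih.1
      rw [es, ea]
      refine ⟨union_subset (ih.1.trans (Iio_subset_Iio h1.le)) fun m hm =>
        (hT j _ _ ih.1 hm).2.2, ?_⟩
      rintro m (hm | hm)
      · exact (ih.2 m hm).trans h1.le
      · exact hg j _ _ ih.1 m hm
  have ha : StrictMono a := strictMono_nat_of_lt_succ fun j => hA j _ _ (inv j).1
  have hsm : Monotone s := monotone_nat_of_le_succ fun j => subset_union_left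
  have hT' : ∀ j, t j ⊆ free (E j) ∩ Ico (a j) (a (j + 1)) := fun j => hT j _ _ (inv j).1
  let y : Set ℕ := ⋃ j, s j
  have hy1 : ∀ j, s j ⊆ y := subset_iUnion s
  have hy2 : ∀ j, ∀ m ∈ y, m ∈ s j ∨ ∃ i, j ≤ i ∧ m ∈ t i := by
    intro j m hm
    obtain ⟨i, hi⟩ := mem_iUnion.1 hm
    induction i with
    | zero => exact Or.inl (hsm (Nat.zero_le j) hi)
    | succ i ih =>
      rcases hi with hi | hi
      · exact ih hi
      · by_cases hij : j ≤ i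
        · exact Or.inr ⟨i, hij, hi⟩
        · exact Or.inl (hsm (by omega : i + 1 ≤ j) (Or.inr hi))
  have hy3 : ∀ j, ∀ m ∈ y, m < a j → m ∈ s j := by
    intro j m hm hlt
    rcases hy2 j m hm with h | ⟨i, hi, h⟩
    · exact h
    · exact absurd ((ha.monotone hi).trans (hT' i h).2.1) (not_le.2 hlt)
  have hyi : y.Infinite := infinite_of_forall_exists_gt fun j => by
    obtain ⟨m, hm⟩ := hne (j + 1) _ _ (inv (j + 1)).1
    exact ⟨m, hy1 (j + 2) (Or.inr hm), lt_of_lt_of_le (Nat.lt_succ_self j)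
      (ha.le_apply.trans (hT' (j + 1) hm).2.1)⟩
  obtain ⟨e, he1, he2, he3⟩ := exists_sparse hyi H
  let z : Pt := ⟨y, e, g⟩
  have hav : ∀ w ∈ p.D, (y ∩ w.R).Finite := by
    intro w hw
    obtain ⟨j, hj⟩ := eventually_atTop.1 (e3 {w} (singleton_subset_iff.2 hw) (finite_singleton w))
    refine (finite_Iio (a j)).subset fun m hm => ?_
    rcases hy2 j m hm.1 with h | ⟨i, hi, h⟩
    · exact (inv j).1 h
    · exact absurd hm.2 ((hT' i h).1 w (Or.inr (hj i hi rfl)))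
  have hsubR : ∀ w ∈ p.D, w.y ⊆ w.R := fun w hw m hm => ⟨m, hm, le_rfl, p.lt w hw m⟩
  have hnR : ∀ j k, a j ≤ k → k < a (j + 1) → (∀ m ∈ t j, m ≤ k → g m ≤ k) → k ∉ z.R := by
    rintro j k h1 h2 h3 ⟨m, hm, h4, h5⟩
    rcases hy3 (j + 1) m hm (h4.trans_lt h2) with h | h
    · exact absurd (((inv j).2 m h).trans h1) (not_le.2 h5)
    · exact absurd (h3 m h h4) (not_le.2 h5)
  have hsplit : ∀ F ⊆ insert z p.D, F.Finite → ∀ᶠ j in atTop, F ⊆ insert z (E j) := by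
    intro F hF hfin
    filter_upwards [e3 (F \ {z}) (fun w hw => (hF hw.1).resolve_left hw.2) (hfin.sdiff)]
      with j hj w hw
    by_cases h : w = z
    · exact Or.inl h
    · exact Or.inr (Or.inr (hj ⟨hw, h⟩))
  have hfree : ∀ j k, k ∈ free (E j) → k ∉ z.R → k ∈ free (insert z (E j)) := by
    rintro j k h1 h2 w (rfl | hw)
    · exact h2
    · exact h1 w hw
  refine ⟨⟨insert z p.D, p.Pr, p.cD.insert z, p.cP, ?_, ?_, ?_, ?_, ?_, ?_⟩,
    ⟨subset_insert _ _, subset_rfl, ?_⟩, z, mem_insert _ _, g2, he3, hy1 0, ?_⟩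
  · rintro w (rfl | hw)
    exacts [g1, p.lt w hw]
  · rintro w (rfl | hw)
    exacts [he1, p.sub w hw]
  · rintro w (rfl | hw)
    exacts [he2, p.inf w hw]
  · rintro w (rfl | hw) w' (rfl | hw') hne
    · exact absurd rfl hne
    · exact (hav w' hw').subset (inter_subset_inter_right _ (hsubR w' hw'))
    · rw [inter_comm]; exact (hav w hw).subset (inter_subset_inter_right _ (hsubR w hw))
    · exact p.ad w hw w' hw' hne
  · intro F hF hfin
    refine infinite_of_forall_exists_gt fun b => ?_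
    obtain ⟨j, h1, h2⟩ := ((hsplit F hF hfin).and (eventually_gt_atTop b)).exists
    obtain ⟨m, m1, m2, m3, m4⟩ := hR j _ _ (inv j).1
    exact ⟨m, free_anti h1 (hfree j m m1 (hnR j m m2 m3 m4)),
      h2.trans_le (ha.le_apply.trans m2)⟩
  · intro π hπ F hF hfin a' k
    obtain ⟨j, rfl, h1, h2, h3⟩ := ((f2 π hπ).and_eventually ((hsplit F hF hfin).and
      ((eventually_ge_atTop a').and (eventually_ge_atTop k)))).exists
    obtain ⟨n, d, n1, n2, n3, n4, n5, n6⟩ := hP j _ _ (inv j).1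
    refine ⟨n, fun w hw => ?_, (n2.of_le h3).mono subset_rfl (fun m hm => ?_)
      (h2.trans ha.le_apply) n3⟩
    · rcases h1 hw with rfl | h
      · exact n5 y fun i hi => ⟨fun h => hy1 (j + 1) h, fun h => hy3 (j + 1) i h hi⟩
      · exact n1 w h
    · exact free_anti h1 (hfree j m hm.1 (hnR j m hm.2.1 (hm.2.2.trans_le n4)
        fun m' h4 h5 => absurd ((n6 m' h4).trans h5) (not_le.2 hm.2.2)))
  · rintro w hw w' (rfl | hw') hn
    · exact ⟨hav w hw, g3 w hw⟩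
    · exact absurd hw' hn
  · intro m hm
    rcases hy2 0 m hm.1 with h | ⟨i, -, h⟩
    · exact absurd h hm.2
    · exact ⟨free_anti subset_union_left (hT' i h).1, le_trans (Nat.le_add_right c b)
        ((ha.monotone (Nat.zero_le i)).trans (hT' i h).2.1)⟩

/-- the promise for a sequence of covers can always be made -/
theorem PP.exists_prom' (p : PP) (sm : ℕ → Set ℕ → ℕ → Prop)
    (h1 : ∀ n x x' k k', Agree k x x' → k ≤ k' → sm n x k → sm n x' k')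
    (h2 : ∀ q ≤ p, ∀ n, ∀ t ∈ q.D, ∃ k, sm n t.y k) :
    ∃ q ≤ p, ∃ π ∈ q.Pr, ∀ n x, x ∈ π.G n → sm n x (π.h n) := by
  refine p.exists_prom sm h1 (h2 p le_rfl) fun n E hE hf c s hs => ?_
  obtain ⟨q, hq, t, ht, -, -, h3, h4⟩ := p.exists_ext id id hE hf c hs
  obtain ⟨k, hk⟩ := h2 q hq n t ht
  refine ⟨(t.y \ s) ∩ Iio k, k, fun m hm => ⟨(h4 hm.1).1, (h4 hm.1).2, hm.2⟩,
    h1 n _ _ k k (fun i hi => ?_) le_rfl hk⟩
  have := @h3 i
  simp only [mem_union, mem_inter_iff, Set.mem_sdiff, mem_Iio]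
  tauto

/-- the gap property, for a relation that behaves like a name of a free ultrafilter -/
theorem gap (p : PP) (Ul : PP → Set ℕ → Prop)
    (u1 : ∀ q r A, r ≤ q → Ul q A → Ul r A)
    (u2 : ∀ q ≤ p, ∀ A B, Ul q A → (∀ᶠ n in atTop, n ∈ A → n ∈ B) → Ul q B)
    (u3 : ∀ q ≤ p, ∀ A, ∃ r ≤ q, Ul r A ∨ Ul r Aᶜ) :
    ∃ q ≤ p, ∃ g : ℕ → ℕ, (∀ n, n ≤ g n) ∧ ∀ q' ≤ q, ∀ g' : ℕ → ℕ, ∃ r ≤ q', ∀ r' ≤ r,
      ∀ t ∈ r'.D, t ∉ r.D → ∃ r'' ≤ r', Ul r'' {n | ∀ m ∈ t.y, g n ≤ m → g' n ≤ m} := by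
  by_cases h : ∀ q' ≤ p, ∀ g' : ℕ → ℕ, ∃ r ≤ q', ∀ r' ≤ r,
      ∀ t ∈ r'.D, t ∉ r.D → ∃ r'' ≤ r', Ul r'' {n | ∀ m ∈ t.y, n ≤ m → g' n ≤ m}
  · exact ⟨p, le_rfl, id, fun _ => le_rfl, h⟩
  push Not at h
  obtain ⟨q, hq, g, h⟩ := h
  refine ⟨q, hq, fun n => max n (g n), fun n => le_max_left _ _, fun q' hq' g' => ?_⟩
  obtain ⟨q1, hq1, t1, ht1, h1, -⟩ := q'.exists_ext
    (fun m => ∑ i ∈ Finset.range (m + 1), g' i) id (empty_subset _) finite_empty 0 (empty_subset _)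
  obtain ⟨r', hr', t, ht, htn, h2⟩ := h q1 (hq1.trans hq')
  have hp : r' ≤ p := hr'.trans (hq1.trans (hq'.trans hq))
  obtain ⟨r, hr, h3⟩ := u3 r' hp {n | ∀ m ∈ t.y, n ≤ m → g n ≤ m}
  replace h3 := h3.resolve_left (h2 r hr)
  refine ⟨r, hr.trans (hr'.trans hq1), fun s hs w hw hwn => ⟨s, le_rfl, ?_⟩⟩
  refine u2 s (hs.trans (hr.trans hp)) _ _ (u1 _ _ _ hs h3) ?_
  obtain ⟨b, hb⟩ := (hs.2.2 t (hr.1 ht) w hw hwn).1.bddAbove
  obtain ⟨c, hc⟩ := eventually_atTop.1 (hr'.2.2 t1 ht1 t ht htn).2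
  filter_upwards [eventually_gt_atTop b, eventually_ge_atTop c] with n n1 n2 hn m hm h4
  simp only [mem_compl_iff, mem_ofPred_eq, not_forall, not_le] at hn
  obtain ⟨k, k1, k2, k3⟩ := hn
  by_contra h5
  have h6 : g' n ≤ t.g k := by
    refine le_trans ?_ ((h1 k).trans (hc k (n2.trans k2)))
    exact Finset.single_le_sum (fun _ _ => Nat.zero_le _) (Finset.mem_range.2 (by omega))
  have h7 : m ≤ b := hb ⟨hm, k, k1, k3.le.trans ((le_max_right _ _).trans h4),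
    (not_le.1 h5).trans_le h6⟩
  have := (le_max_left _ _).trans h4
  omega

end Pool.Agent.P.MP_d1514d_gt
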