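import Pool.Agent.P.MP_d1514d_gt.Inst

set_option autoImplicit false
set_option synthInstance.maxSize 100000
set_option linter.unusedSectionVars false

open Pool.Agent.Lib.PosetForcing

namespace Pool.Agent.P.MP_d1514d_gt

variable {P : Type} [Preorder P] [OrderTop P]

theorem forall_app_fun {ι : Type} {X Y : ι → Name P} {Φ : ∀ U : Gen P, Mod U → Mod U → Prop}
    [∀ a b : Name P, Clopen fun U => Φ U (a.val U) (b.val U)]
    (h : ∀ i U, Φ U ((X i).val U) ((Y i).val U)) (U : Gen P) :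
    ∀ x y, App Mod.mem ((funName X Y).val U) x y → Φ U x y :=
  of_forces_all (Φ := fun U => ∀ x y, App Mod.mem ((funName X Y).val U) x y → Φ U x y)
    (fun p => ⟨p, le_rfl, forces_forall_app_graph fun i q _ _ =>
      ⟨q, le_rfl, Forces.of_forall (h i) q⟩⟩) U

/-- name of a binary operation on the reals -/
noncomputable def opName (f : ℝ → ℝ → ℝ) : Name P :=
  funName (fun z : ℝ × ℝ => pairName (elt z.1) (elt z.2)) fun z => elt (f z.1 z.2)

/-- name of the order of the reals -/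
noncomputable def leName : Name P :=
  funName (fun z : {z : ℝ × ℝ // z.1 ≤ z.2} => elt z.1.1) fun z => elt z.1.2

theorem forall_app2 {f : ℝ → ℝ → ℝ} {Φ : ∀ U : Gen P, Mod U → Mod U → Mod U → Prop}
    [∀ a b c : Name P, Clopen fun U => Φ U (a.val U) (b.val U) (c.val U)]
    (h : ∀ a b U, Φ U ((elt a).val U) ((elt b).val U) ((elt (f a b)).val U)) (U : Gen P) :
    ∀ x y z, App2 Mod.mem ((opName f).val U) x y z → Φ U x y z := by
  rintro x y z ⟨p, h1, h2⟩
  refine forall_app_fun (Φ := fun U p z => ∀ x y, IsPair Mod.mem p x y → Φ U x y z)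
    (fun i U x y h3 => ?_) U p z h2 x y h1
  obtain ⟨rfl, rfl⟩ := (isZFC U).pair_inj h3 (isPair_pairName _ _ U)
  exact h _ _ U

theorem app2_iff {f : ℝ → ℝ → ℝ} {a b : ℝ} {U : Gen P} {z : Mod U} :
    App2 Mod.mem ((opName f).val U) ((elt a).val U) ((elt b).val U) z ↔
      z = (elt (f a b)).val U := by
  constructor
  · intro h
    exact forall_app2 (Φ := fun U x y z => x = (elt a).val U → y = (elt b).val U →
      z = (elt (f a b)).val U) (fun a' b' U h1 h2 => by rw [elt_inj h1, elt_inj h2]) U _ _ _ h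
      rfl rfl
  · rintro rfl
    exact ⟨_, isPair_pairName _ _ U, app_funName (fun z : ℝ × ℝ => pairName (elt z.1) (elt z.2))
      (fun z => elt (f z.1 z.2)) (a, b) U⟩

theorem allR' {Φ : ∀ U : Gen P, Mod U → Prop} [∀ a : Name P, Clopen fun U => Φ U (a.val U)]
    (h : ∀ (a : ℝ) U, Φ U ((elt a).val U)) (U : Gen P) :
    ∀ x, Mod.mem x ((tyName ℝ).val U) → Φ U x := forall_mem_fam h U

theorem isOp_opName (f : ℝ → ℝ → ℝ) (U : Gen P) :
    IsOp Mod.mem ((opName f).val U) ((tyName ℝ).val U) := by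
  refine ⟨forall_app2 (Φ := fun U x y z => Mod.mem x ((tyName ℝ).val U) ∧
    Mod.mem y ((tyName ℝ).val U) ∧ Mod.mem z ((tyName ℝ).val U)) (fun a b U =>
      ⟨elt_mem_tyName _ U, elt_mem_tyName _ U, elt_mem_tyName _ U⟩) U, ?_, fun x y z z' h => ?_⟩
  · revert U
    iterate 2 refine allR' fun _ => ?_
    exact fun U => ⟨_, app2_iff.2 rfl⟩
  · exact forall_app2 (Φ := fun U x y z => ∀ z', App2 Mod.mem ((opName f).val U) x y z' → z = z')
      (fun a b U z' h => (app2_iff.1 h).symm) U x y z h z'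

/-- the components of the context are the canonical names -/
class Std (C : Ctx (Name P)) : Prop where
  w : C.w = omegaName
  R : C.R = tyName ℝ
  add : C.add = opName (· + ·)
  mul : C.mul = opName (· * ·)
  le : C.le = leName
  zero : C.zero = elt (0 : ℝ)
  one : C.one = elt (1 : ℝ)

variable {C : Ctx (Name P)} [hC : Std C]

theorem w_eq (U : Gen P) : (C.val U).w = omegaName.val U := congrArg (·.val U) hC.w
theorem zero_eq (U : Gen P) : (C.val U).zero = (elt (0 : ℝ)).val U := congrArg (·.val U) hC.zero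
theorem one_eq (U : Gen P) : (C.val U).one = (elt (1 : ℝ)).val U := congrArg (·.val U) hC.one

theorem elt_mem_R (a : ℝ) (U : Gen P) : Mod.mem ((elt a).val U) (C.val U).R := by
  show Mod.mem _ (C.R.val U)
  rw [hC.R]; exact elt_mem_tyName a U

theorem nat_mem_w (n : ℕ) (U : Gen P) : Mod.mem ((natName n).val U) (C.val U).w := by
  rw [w_eq]; exact natName_mem_omega n U

theorem allR {Φ : ∀ U : Gen P, Mod U → Prop} [∀ a : Name P, Clopen fun U => Φ U (a.val U)]
    (h : ∀ (a : ℝ) U, Φ U ((elt a).val U)) (U : Gen P) :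
    ∀ x, Mod.mem x (C.val U).R → Φ U x := by
  show ∀ x, Mod.mem x (C.R.val U) → Φ U x
  rw [hC.R]; exact allR' h U

theorem dec_real {p : P} {a : Name P} (h : Forces p fun U => Mod.mem (a.val U) (C.val U).R) :
    ∃ q ≤ p, ∃ r : ℝ, Forces q fun U => a.val U = (elt r).val U := by
  have : Forces p fun U => Mod.mem (a.val U) ((tyName ℝ).val U) := by rw [← hC.R]; exact h
  exact this.exists_fam

theorem dec_nat {p : P} {a : Name P} (h : Forces p fun U => Mod.mem (a.val U) (C.val U).w) :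
    ∃ q ≤ p, ∃ n : ℕ, Forces q fun U => a.val U = (natName n).val U := by
  have : Forces p fun U => Mod.mem (a.val U) (omegaName.val U) := by rw [← hC.w]; exact h
  obtain ⟨q, hq, n, hn⟩ := this.exists_fam
  exact ⟨q, hq, n.down, hn⟩

theorem radd_iff {a b : ℝ} {U : Gen P} {z : Mod U} :
    RAdd Mod.mem (C.val U) ((elt a).val U) ((elt b).val U) z ↔ z = (elt (a + b)).val U := by
  show App2 _ (C.add.val U) _ _ _ ↔ _
  rw [hC.add]; exact app2_iff

theorem rmul_iff {a b : ℝ} {U : Gen P} {z : Mod U} :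
    RMul Mod.mem (C.val U) ((elt a).val U) ((elt b).val U) z ↔ z = (elt (a * b)).val U := by
  show App2 _ (C.mul.val U) _ _ _ ↔ _
  rw [hC.mul]; exact app2_iff

theorem elt_eq_iff {X : Type} {a b : X} {U : Gen P} :
    (elt a).val U = (elt b).val U ↔ a = b := ⟨elt_inj, fun h => h ▸ rfl⟩

theorem rle_iff {a b : ℝ} {U : Gen P} :
    RLe Mod.mem (C.val U) ((elt a).val U) ((elt b).val U) ↔ a ≤ b := by
  show App _ (C.le.val U) _ _ ↔ _
  rw [hC.le]
  constructor
  · intro h
    exact forall_app_fun (Φ := fun U x y => x = (elt a).val U → y = (elt b).val U → a ≤ b)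
      (fun i U h1 h2 => by rw [← elt_inj h1, ← elt_inj h2]; exact i.2) U _ _ h rfl rfl
  · intro h
    exact app_funName (fun z : {z : ℝ × ℝ // z.1 ≤ z.2} => elt z.1.1) (fun z => elt z.1.2)
      ⟨(a, b), h⟩ U

theorem rlt_iff {a b : ℝ} {U : Gen P} :
    RLt Mod.mem (C.val U) ((elt a).val U) ((elt b).val U) ↔ a < b := by
  rw [RLt, rle_iff, Ne, elt_eq_iff, lt_iff_le_and_ne]

theorem add_op (U : Gen P) : IsOp Mod.mem (C.val U).add (C.val U).R := by
  show IsOp _ (C.add.val U) (C.R.val U)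
  rw [hC.add, hC.R]; exact isOp_opName _ U

theorem mul_op (U : Gen P) : IsOp Mod.mem (C.val U).mul (C.val U).R := by
  show IsOp _ (C.mul.val U) (C.R.val U)
  rw [hC.mul, hC.R]; exact isOp_opName _ U

theorem le_mem (U : Gen P) :
    ∀ x y, RLe Mod.mem (C.val U) x y → Mod.mem x (C.val U).R ∧ Mod.mem y (C.val U).R := by
  show ∀ x y, App _ (C.le.val U) x y → _
  rw [hC.le]
  exact forall_app_fun (Φ := fun U x y => Mod.mem x (C.val U).R ∧ Mod.mem y (C.val U).R)
    (fun i U => ⟨elt_mem_R _ U, elt_mem_R _ U⟩) U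

theorem rle_trans (U : Gen P) (x y z : Mod U) (h1 : RLe Mod.mem (C.val U) x y)
    (h2 : RLe Mod.mem (C.val U) y z) : RLe Mod.mem (C.val U) x z := by
  have : ∀ (U : Gen P) x, Mod.mem x (C.val U).R → ∀ y, Mod.mem y (C.val U).R → ∀ z, Mod.mem z (C.val U).R →
      RLe Mod.mem (C.val U) x y → RLe Mod.mem (C.val U) y z → RLe Mod.mem (C.val U) x z := by
    iterate 3 refine allR fun _ => ?_
    intro U
    simp only [rle_iff]; exact le_trans
  exact this U x (le_mem U _ _ h1).1 y (le_mem U _ _ h1).2 z (le_mem U _ _ h2).2 h1 h2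

theorem forces_isSup {Φ : ∀ U : Gen P, Mod U → Prop}
    [∀ a : Name P, Clopen fun U => Φ U (a.val U)] {p : P} {r : ℝ}
    (h1 : Forces p fun U => ∀ x, Φ U x → Mod.mem x (C.val U).R)
    (h2 : ∀ q ≤ p, ∀ a : ℝ, (Forces q fun U => Φ U ((elt a).val U)) → a ≤ r)
    (h3 : ∀ q ≤ p, ∀ b < r, ∃ s ≤ q, ∃ a : ℝ, b < a ∧ Forces s fun U => Φ U ((elt a).val U)) :
    Forces p fun U => IsSup Mod.mem (C.val U) (Φ U) ((elt r).val U) := by
  refine (Forces.of_forall (elt_mem_R r) p).and (Forces.and ?_ ?_)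
  · refine forces_forall fun x => forces_imp fun q hq h => ?_
    obtain ⟨s, hs, a, ha⟩ := dec_real (C := C) (((h1.mono hq).and h).imp fun U h => h.1 _ h.2)
    have := h2 s (hs.trans hq) a (((h.mono hs).and ha).imp fun U h => h.2 ▸ h.1)
    exact ⟨s, hs, ha.imp fun U h => by rw [h]; exact rle_iff.2 this⟩
  · refine forces_forall fun y => forces_imp fun q hq h => ?_
    obtain ⟨s, hs, b, hb⟩ := dec_real (C := C) h
    refine ⟨s, hs, forces_imp fun t ht h4 => ⟨t, le_rfl, ?_⟩⟩
    have : r ≤ b := by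
      by_contra hlt
      obtain ⟨u, hu, a, h5, h6⟩ := h3 t (ht.trans (hs.trans hq)) b (not_le.1 hlt)
      refine absurd (forces_const (p := u) fun U hU => ?_) (not_le.2 h5)
      have := h4.mono hu U hU _ (h6 U hU)
      rw [hb.mono (hu.trans ht) U hU] at this
      exact rle_iff.1 this
    exact (hb.mono ht).imp fun U h => by rw [h]; exact rle_iff.2 this

theorem complete (hσ : SigmaClosed P) (U : Gen P) : ∀ A, IsSub Mod.mem A (C.val U).R →
    (∃ x, Mod.mem x A) → (∃ b, Mod.mem b (C.val U).R ∧ ∀ x, Mod.mem x A → RLe Mod.mem (C.val U) x b) →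
    ∃ r, IsSup Mod.mem (C.val U) (fun x => Mod.mem x A) r := by
  intro A
  obtain ⟨A, rfl⟩ := A.exists_name
  revert U
  refine by_forcing3 fun p h1 h2 h3 => ?_
  obtain ⟨b, hb⟩ := h3.exists_name
  obtain ⟨p1, hp1, b', hb'⟩ := dec_real (C := C) (hb.imp fun _ h => h.1)
  obtain ⟨q, hq, h4⟩ := hσ.exists_forall p1 (fun (ρ : ℚ) q =>
    (Forces q fun U => ∃ x, Mod.mem x (A.val U) ∧ RLe Mod.mem (C.val U) ((elt (ρ : ℝ)).val U) x) ∨
    Forces q fun U => ¬ ∃ x, Mod.mem x (A.val U) ∧ RLe Mod.mem (C.val U) ((elt (ρ : ℝ)).val U) x)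
    (fun _ _ _ h h' => h'.imp (·.mono h) (·.mono h)) fun _ q _ => exists_decide _ q
  let T : Set ℝ := {a | ∃ s ≤ q, Forces s fun U => Mod.mem ((elt a).val U) (A.val U)}
  have hp : q ≤ p := hq.trans hp1
  have hT : ∀ s ≤ q, ∀ x : Name P, (Forces s fun U => Mod.mem (x.val U) (A.val U)) →
      ∃ t ≤ s, ∃ a : ℝ, (Forces t fun U => x.val U = (elt a).val U) ∧
        Forces t fun U => Mod.mem ((elt a).val U) (A.val U) := by
    intro s hs x hx
    obtain ⟨t, ht, a, ha⟩ := dec_real (C := C)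
      (((h1.mono (hs.trans hp)).and hx).imp fun U h => h.1 _ h.2)
    exact ⟨t, ht, a, ha, ((hx.mono ht).and ha).imp fun U h => h.2 ▸ h.1⟩
  have hne : T.Nonempty := by
    obtain ⟨x, hx⟩ := (h2.mono hp).exists_name
    obtain ⟨t, ht, a, -, ha⟩ := hT q le_rfl x hx
    exact ⟨a, t, ht, ha⟩
  have hbd : BddAbove T := ⟨b', by
    rintro a ⟨s, hs, ha⟩
    refine forces_const (p := s) fun U hU => ?_
    have := (hb.mono (hs.trans hp) U hU).2 _ (ha U hU)
    rw [hb'.mono (hs.trans hq) U hU] at this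
    exact rle_iff.1 this⟩
  refine ⟨q, hp, (forces_isSup (C := C) (Φ := fun U x => Mod.mem x (A.val U)) (r := sSup T)
    (h1.mono hp) (fun s hs a ha => le_csSup hbd ⟨s, hs, ha⟩) fun s hs c hc => ?_).imp
      fun U h => ⟨_, h⟩⟩
  obtain ⟨a, ⟨t, ht, ha⟩, hca⟩ := exists_lt_of_lt_csSup hne hc
  obtain ⟨ρ, h5, h6⟩ := exists_rat_btwn hca
  rcases h4 ρ with h7 | h7
  · obtain ⟨x, hx⟩ := (h7.mono hs).exists_name
    obtain ⟨u, hu, a', h8, h9⟩ := hT s hs x (hx.imp fun _ h => h.1)
    refine ⟨u, hu, a', h5.trans_le (forces_const (p := u) fun U hU => ?_), h9⟩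
    have := (hx.mono hu U hU).2
    rw [h8 U hU] at this
    exact rle_iff.1 this
  · exact (Forces.not_false (p := t) fun U hU =>
      h7.mono ht U hU ⟨_, ha U hU, rle_iff.2 h6.le⟩).elim

theorem isReals (hσ : SigmaClosed P) (U : Gen P) : IsReals Mod.mem (C.val U) where
  add_op := add_op U
  mul_op := mul_op U
  le_mem := le_mem U
  zero_mem := by rw [zero_eq]; exact elt_mem_R _ U
  one_mem := by rw [one_eq]; exact elt_mem_R _ U
  zero_ne_one := by rw [zero_eq, one_eq, Ne, elt_eq_iff]; exact zero_ne_one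
  add_comm x y z h := by
    have : ∀ (U : Gen P) x, Mod.mem x (C.val U).R → ∀ y, Mod.mem y (C.val U).R → ∀ z,
        RAdd Mod.mem (C.val U) x y z → RAdd Mod.mem (C.val U) y x z := by
      iterate 2 refine allR fun _ => ?_
      intro U
      simp only [radd_iff]; intro z h; rw [h, add_comm]
    exact this U x ((add_op U).1 _ _ _ h).1 y ((add_op U).1 _ _ _ h).2.1 z h
  add_assoc x y z a b c h1 h2 := by
    have : ∀ (U : Gen P) x, Mod.mem x (C.val U).R → ∀ y, Mod.mem y (C.val U).R → ∀ z, Mod.mem z (C.val U).R →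
        ∀ a b c, RAdd Mod.mem (C.val U) x y a → RAdd Mod.mem (C.val U) a z c →
        RAdd Mod.mem (C.val U) y z b → RAdd Mod.mem (C.val U) x b c := by
      iterate 3 refine allR fun _ => ?_
      intro U
      intro a b c h1 h2 h3
      rw [radd_iff.1 h1] at h2
      rw [radd_iff.1 h2, radd_iff.1 h3, radd_iff, add_assoc]
    exact this U x ((add_op U).1 _ _ _ h1).1 y ((add_op U).1 _ _ _ h1).2.1 z
      ((add_op U).1 _ _ _ h2).2.1 a b c h1 h2
  add_zero := by
    revert U
    exact allR fun a U => by rw [zero_eq, radd_iff, add_zero]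
  add_neg := by
    revert U
    refine allR fun a U => ?_
    exact ⟨(elt (-a)).val U, by rw [zero_eq, radd_iff, add_neg_cancel]⟩
  mul_comm x y z h := by
    have : ∀ (U : Gen P) x, Mod.mem x (C.val U).R → ∀ y, Mod.mem y (C.val U).R → ∀ z,
        RMul Mod.mem (C.val U) x y z → RMul Mod.mem (C.val U) y x z := by
      iterate 2 refine allR fun _ => ?_
      intro U
      simp only [rmul_iff]; intro z h; rw [h, mul_comm]
    exact this U x ((mul_op U).1 _ _ _ h).1 y ((mul_op U).1 _ _ _ h).2.1 z h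
  mul_assoc x y z a b c h1 h2 := by
    have : ∀ (U : Gen P) x, Mod.mem x (C.val U).R → ∀ y, Mod.mem y (C.val U).R → ∀ z, Mod.mem z (C.val U).R →
        ∀ a b c, RMul Mod.mem (C.val U) x y a → RMul Mod.mem (C.val U) a z c →
        RMul Mod.mem (C.val U) y z b → RMul Mod.mem (C.val U) x b c := by
      iterate 3 refine allR fun _ => ?_
      intro U
      intro a b c h1 h2 h3
      rw [rmul_iff.1 h1] at h2
      rw [rmul_iff.1 h2, rmul_iff.1 h3, rmul_iff, mul_assoc]
    exact this U x ((mul_op U).1 _ _ _ h1).1 y ((mul_op U).1 _ _ _ h1).2.1 z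
      ((mul_op U).1 _ _ _ h2).2.1 a b c h1 h2
  mul_one := by
    revert U
    exact allR fun a U => by rw [one_eq, rmul_iff, mul_one]
  mul_inv := by
    revert U
    refine allR fun a U => ?_
    intro h
    rw [zero_eq, Ne, elt_eq_iff] at h
    exact ⟨(elt a⁻¹).val U, by rw [one_eq, rmul_iff, mul_inv_cancel₀ h]⟩
  distrib x y z a b c d h1 h2 := by
    have : ∀ (U : Gen P) x, Mod.mem x (C.val U).R → ∀ y, Mod.mem y (C.val U).R → ∀ z, Mod.mem z (C.val U).R →
        ∀ a b c d, RAdd Mod.mem (C.val U) y z a → RMul Mod.mem (C.val U) x a b →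
        RMul Mod.mem (C.val U) x y c → RMul Mod.mem (C.val U) x z d →
        RAdd Mod.mem (C.val U) c d b := by
      iterate 3 refine allR fun _ => ?_
      intro U
      intro a b c d h1 h2 h3 h4
      rw [radd_iff.1 h1] at h2
      rw [rmul_iff.1 h2, rmul_iff.1 h3, rmul_iff.1 h4, radd_iff, mul_add]
    exact this U x ((mul_op U).1 _ _ _ h2).1 y ((add_op U).1 _ _ _ h1).1 z
      ((add_op U).1 _ _ _ h1).2.1 a b c d h1 h2
  le_refl := by
    revert U
    refine allR fun a U => ?_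
    exact rle_iff.2 le_rfl
  le_antisymm x y h := by
    have : ∀ (U : Gen P) x, Mod.mem x (C.val U).R → ∀ y, Mod.mem y (C.val U).R →
        RLe Mod.mem (C.val U) x y → RLe Mod.mem (C.val U) y x → x = y := by
      iterate 2 refine allR fun _ => ?_
      intro U
      simp only [rle_iff, elt_eq_iff]; exact le_antisymm
    exact this U x (le_mem U _ _ h).1 y (le_mem U _ _ h).2 h
  le_trans := rle_trans U
  le_total := by
    revert U
    iterate 2 refine allR fun _ => ?_
    intro U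
    simp only [rle_iff]; exact le_total _ _
  add_le x y z a b h1 h2 := by
    have : ∀ (U : Gen P) x, Mod.mem x (C.val U).R → ∀ y, Mod.mem y (C.val U).R → ∀ z, Mod.mem z (C.val U).R →
        ∀ a b, RLe Mod.mem (C.val U) x y → RAdd Mod.mem (C.val U) x z a →
        RAdd Mod.mem (C.val U) y z b → RLe Mod.mem (C.val U) a b := by
      iterate 3 refine allR fun _ => ?_
      intro U
      intro a b h1 h2 h3
      rw [radd_iff.1 h2, radd_iff.1 h3, rle_iff]
      linarith [rle_iff.1 h1]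
    exact this U x (le_mem U _ _ h1).1 y (le_mem U _ _ h1).2 z ((add_op U).1 _ _ _ h2).2.1 a b h1 h2
  mul_nonneg x y z h1 h2 := by
    have : ∀ (U : Gen P) x, Mod.mem x (C.val U).R → ∀ y, Mod.mem y (C.val U).R → ∀ z,
        RLe Mod.mem (C.val U) (C.val U).zero x → RLe Mod.mem (C.val U) (C.val U).zero y →
        RMul Mod.mem (C.val U) x y z → RLe Mod.mem (C.val U) (C.val U).zero z := by
      iterate 2 refine allR fun _ => ?_
      intro U
      intro z h1 h2 h3
      rw [zero_eq] at h1 h2 ⊢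
      rw [rmul_iff.1 h3, rle_iff]
      exact mul_nonneg (rle_iff.1 h1) (rle_iff.1 h2)
    exact this U x (le_mem U _ _ h1).2 y (le_mem U _ _ h2).2 z h1 h2
  complete := complete hσ U

/-- name of a sequence -/
noncomputable def seqName (A : ℕ → Name P) : Name P := funName (fun n : ℕ => natName n) A

theorem app_seq {A : ℕ → Name P} {n : ℕ} {U : Gen P} {y : Mod U} :
    App Mod.mem ((seqName A).val U) ((natName n).val U) y ↔ y = (A n).val U :=
  ⟨fun h => forall_app_fun (Φ := fun U x y => x = (natName n).val U → y = (A n).val U)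
    (fun i U h => by rw [natName_inj h]) U _ _ h rfl,
    fun h => h ▸ app_funName (fun n : ℕ => natName n) A n U⟩

theorem mem_fam_finset {ι : Type} (s : Finset ι) (A : ι → Name P) (U : Gen P) (x : Mod U) :
    Mod.mem x ((fam fun i : s => A i).val U) ↔ ∃ i ∈ s, x = (A i).val U :=
  ⟨forall_mem_fam (Φ := fun U x => ∃ i ∈ s, x = (A i).val U) (fun (i : s) _ => ⟨i, i.2, rfl⟩) U x,
    fun ⟨i, hi, h⟩ => h ▸ mem_fam (fun i : s => A i) ⟨i, hi⟩ U⟩

theorem forces_isFunOn_seq {A : ℕ → Name P} {V : ∀ U : Gen P, Mod U → Prop}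
    [∀ a : Name P, Clopen fun U => V U (a.val U)] {p : P}
    (h : ∀ n, Forces p fun U => V U ((A n).val U)) :
    Forces p fun U => IsFunOn Mod.mem ((seqName A).val U) (C.val U).w (V U) := by
  show Forces p fun U => IsFunOn Mod.mem ((seqName A).val U) (C.w.val U) (V U)
  rw [hC.w]
  refine forces_isFunOn_graph (fun i q hq _ => ⟨q, le_rfl,
    (Forces.of_forall (natName_mem_omega i) q).and ((h i).mono hq)⟩)
    (fun j q _ _ => ⟨q, le_rfl, j.down, le_top, Forces.of_forall (fun _ => rfl) q⟩)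
    fun i j q _ _ _ h => ⟨q, le_rfl, Forces.of_forall (fun _ => by rw [h.natName_inj]) q⟩

theorem fin_cover {p : P} {A : Name P} (h : Forces p fun U => IsFin Mod.mem (C.val U) (A.val U)) :
    ∃ q ≤ p, ∃ (s : Finset ℕ) (a : ℕ → Name P),
      Forces q fun U => ∀ x, Mod.mem x (A.val U) ↔ ∃ i ∈ s, x = (a i).val U := by
  classical
  obtain ⟨n, hn⟩ := h.exists_name
  obtain ⟨p1, hp1, N, hN⟩ := dec_nat (C := C) (hn.imp fun _ h => h.1)
  obtain ⟨j, hj⟩ := Forces.exists_name (Φ := fun U j => IsInj Mod.mem j (A.val U) (n.val U))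
    (hn.imp fun _ h => h.2)
  choose a ha using fun i : ℕ =>
    max_principle (P := P) fun U x => App Mod.mem (j.val U) x ((natName i : Name P).val U)
  obtain ⟨q, hq, b, hb⟩ := exists_decide_lt N (fun m U => Mod.mem ((a m).val U) (A.val U)) p1
  refine ⟨q, hq.trans hp1, (Finset.range N).filter fun m => b m = true, a, fun U hU x => ?_⟩
  have h1 := hj.mono (hq.trans hp1) U hU
  beta_reduce at h1
  rw [hN.mono hq U hU] at h1
  constructor
  · intro hx
    obtain ⟨y, hy⟩ := h1.1.2.1 x hx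
    obtain ⟨m, hm, rfl⟩ := (mem_natName U y).1 ((isZFC U).app_val h1.1 hy).2
    have e := h1.2 _ _ _ hy (ha m U ⟨x, hy⟩)
    exact ⟨m, Finset.mem_filter.2 ⟨Finset.mem_range.2 hm, (hb m hm U hU).1 (e ▸ hx)⟩, e⟩
  · rintro ⟨m, hm, rfl⟩
    rw [Finset.mem_filter, Finset.mem_range] at hm
    exact (hb m hm.1 U hU).2 hm.2

theorem isFin_fam {ι : Type} [Fintype ι] (A : ι → Name P) (U : Gen P) :
    IsFin Mod.mem (C.val U) ((fam A).val U) := by
  refine ⟨_, nat_mem_w (Fintype.card ι) U, ?_⟩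
  revert U
  refine of_forces_all fun p => ⟨p, le_rfl, forces_leCard A
    (fun i => natName (Fintype.equivFin ι i)) (fun x q _ h => h.exists_fam)
    (fun i => Forces.of_forall (natName_mem (Fintype.equivFin ι i).2) p) fun i j hne q _ h =>
      hne ((Fintype.equivFin ι).injective (Fin.ext h.natName_inj))⟩

end Pool.Agent.P.MP_d1514d_gt
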