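import Pool.Agent.P.MP_d1514d_gt.Ext
import Pool.Agent.P.MP_d1514d_gt.Reals

set_option autoImplicit false
set_option synthInstance.maxSize 100000

/-! Names for sets of reals, cylinders, products and selections. -/

open Set Filter Pool.Agent.Lib.PosetForcing

namespace Pool.Agent.P.MP_d1514d_gt

theorem exists_emb : ∃ c : Set ℕ → ℝ, Function.Injective c ∧
    (∀ x a b, a < c x → c x < b → ∃ k, ∀ x', Agree k x x' → a < c x' ∧ c x' < b) ∧
    ∀ x k, ∃ a b, a < c x ∧ c x < b ∧ ∀ x', a < c x' → c x' < b → Agree k x x' := by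
  classical
  let φ : (ℕ → Bool) → ℝ := fun v => (cantorSetHomeomorphNatToBool.symm v : ℝ)
  have hφ : Topology.IsEmbedding φ :=
    Topology.IsEmbedding.subtypeVal.comp cantorSetHomeomorphNatToBool.symm.isEmbedding
  let χ : Set ℕ → ℕ → Bool := fun x i => decide (i ∈ x)
  have hχ : ∀ k x x', χ x' ∈ PiNat.cylinder (χ x) k ↔ Agree k x x' := by
    intro k x x'
    simp only [PiNat.mem_cylinder_iff, χ, decide_eq_decide, Agree]
    exact forall₂_congr fun i _ => Iff.comm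
  refine ⟨fun x => φ (χ x), fun x x' h => ?_, fun x a b h1 h2 => ?_, fun x k => ?_⟩
  · have := hφ.injective h
    ext i
    simpa [χ] using congrFun this i
  · obtain ⟨_, ⟨v, k, rfl⟩, h3, h4⟩ := (PiNat.isTopologicalBasis_cylinders fun _ => Bool).mem_nhds_iff.1
      (hφ.continuous.continuousAt.preimage_mem_nhds (Ioo_mem_nhds h1 h2))
    rw [← PiNat.mem_cylinder_iff_eq.1 h3] at h4
    exact ⟨k, fun x' hx => h4 ((hχ k x x').2 hx)⟩
  · obtain ⟨V, hV, h1⟩ := hφ.isInducing.isOpen_iff.1 (PiNat.isOpen_cylinder (fun _ => Bool) (χ x) k)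
    have h2 : φ (χ x) ∈ V := by
      have : χ x ∈ φ ⁻¹' V := h1 ▸ PiNat.self_mem_cylinder _ _
      exact this
    obtain ⟨a, b, h3, h4⟩ := mem_nhds_iff_exists_Ioo_subset.1 (hV.mem_nhds h2)
    exact ⟨a, b, h3.1, h3.2, fun x' h5 h6 => (hχ k x x').1 (h1 ▸ h4 ⟨h5, h6⟩)⟩

/-- an embedding of the Cantor space into the real line -/
noncomputable def emb : Set ℕ → ℝ := exists_emb.choose

/-- the name of a point -/
noncomputable def ptN (x : Set ℕ) : Name PP := elt (emb x)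

theorem ptN_inj {x x' : Set ℕ} {p : PP} (h : Forces p fun U => (ptN x).val U = (ptN x').val U) :
    x = x' := exists_emb.choose_spec.1 h.elt_inj

/-- the context -/
noncomputable def CC : Ctx (Name PP) :=
  ⟨omegaName, tyName ℝ, opName (· + ·), opName (· * ·), leName, elt (0 : ℝ), elt (1 : ℝ)⟩

instance : Std CC := ⟨rfl, rfl, rfl, rfl, rfl, rfl, rfl⟩

theorem hσ : SigmaClosed PP := sigma

/-- the name of the set of points put in by the relation `ρ` -/
noncomputable def setN (ρ : PP → Set ℕ → Prop) : Name PP :=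
  .mk {z : PP × Set ℕ // ρ z.1 z.2} (fun z => ptN z.1.2) fun z => z.1.1

theorem forces_mem_setN {ρ : PP → Set ℕ → Prop} {p : PP} {x : Set ℕ} (h : ρ p x) :
    Forces p fun U => Mod.mem ((ptN x).val U) ((setN ρ).val U) :=
  forces_el_mem (b := setN ρ) ⟨(p, x), h⟩ le_rfl

/-- the relation persists under extension -/
def Mon (ρ : PP → Set ℕ → Prop) : Prop := ∀ p q x, q ≤ p → ρ p x → ρ q x

theorem exists_pt {ρ : PP → Set ℕ → Prop} (hρ : Mon ρ) {p : PP} {a : Name PP}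
    (h : Forces p fun U => Mod.mem (a.val U) ((setN ρ).val U)) :
    ∃ q ≤ p, ∃ x, ρ q x ∧ Forces q fun U => a.val U = (ptN x).val U := by
  obtain ⟨q, hq, ⟨⟨r, x⟩, h1⟩, h2, h3⟩ := h.exists_el
  exact ⟨q, hq, x, hρ _ _ _ h2 h1, h3⟩

theorem setN_sub {ρ ρ' : PP → Set ℕ → Prop} (h : ∀ p x, ρ p x → ρ' p x) (U : Gen PP) :
    IsSub Mod.mem ((setN ρ).val U) ((setN ρ').val U) :=
  forall_mem (b := setN ρ) (Φ := fun U z => Mod.mem z ((setN ρ').val U)) (fun i q hq =>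
    ⟨q, le_rfl, (forces_mem_setN (h _ _ i.2)).mono hq⟩) U

/-- the name of the subspace topology -/
noncomputable def topN (X : Name PP) : Name PP := sepName (powName X) fun U V =>
  ∀ x, Mod.mem x V → ∃ a b, RLt Mod.mem (CC.val U) a x ∧ RLt Mod.mem (CC.val U) x b ∧
    ∀ y, Mod.mem y (X.val U) → RLt Mod.mem (CC.val U) a y → RLt Mod.mem (CC.val U) y b →
      Mod.mem y V

theorem isRealSet (ρ : PP → Set ℕ → Prop) (U : Gen PP) :
    IsRealSet Mod.mem (CC.val U) ((setN ρ).val U) ((topN (setN ρ)).val U) := by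
  refine ⟨forall_mem (b := setN ρ) (Φ := fun U z => Mod.mem z (CC.val U).R) (fun i q _ =>
    ⟨q, le_rfl, Forces.of_forall (elt_mem_R _) q⟩) U, fun V => ?_⟩
  rw [topN, mem_sepName, mem_powName]
  rfl

/-- the name of a cylinder -/
noncomputable def cylN (ρ : PP → Set ℕ → Prop) (x : Set ℕ) (k : ℕ) : Name PP :=
  setN fun q x' => ρ q x' ∧ Agree k x x'

theorem Mon.cyl {ρ : PP → Set ℕ → Prop} (hρ : Mon ρ) (x : Set ℕ) (k : ℕ) :
    Mon fun q x' => ρ q x' ∧ Agree k x x' := fun p q y hq h => ⟨hρ p q y hq h.1, h.2⟩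

theorem cylN_sub {ρ : PP → Set ℕ → Prop} {x x' : Set ℕ} {k k' : ℕ} (h : Agree k x x')
    (hk : k ≤ k') (U : Gen PP) : IsSub Mod.mem ((cylN ρ x' k').val U) ((cylN ρ x k).val U) :=
  setN_sub (fun _ _ h1 => ⟨h1.1, h.trans (h1.2.mono hk)⟩) U

theorem rlt_mem {U : Gen PP} {a b : Mod U} (h : RLt Mod.mem (CC.val U) a b) :
    Mod.mem a (CC.val U).R ∧ Mod.mem b (CC.val U).R := le_mem U _ _ h.1

theorem cylN_open (ρ : PP → Set ℕ → Prop) (x : Set ℕ) (k : ℕ) (U : Gen PP) :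
    Mod.mem ((cylN ρ x k).val U) ((topN (setN ρ)).val U) := by
  refine ((isRealSet ρ U).2 _).2 ⟨setN_sub (fun _ _ h => h.1) U, ?_⟩
  refine forall_mem (b := cylN ρ x k) (Φ := fun U z => ∃ a b, RLt Mod.mem (CC.val U) a z ∧
    RLt Mod.mem (CC.val U) z b ∧ ∀ y, Mod.mem y ((setN ρ).val U) → RLt Mod.mem (CC.val U) a y →
      RLt Mod.mem (CC.val U) y b → Mod.mem y ((cylN ρ x k).val U)) (fun i q _ => ⟨q, le_rfl, ?_⟩) U
  obtain ⟨⟨r, x'⟩, h1, h2⟩ := i
  obtain ⟨a, b, h3, h4, h5⟩ := exists_emb.choose_spec.2.2 x' k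
  refine Forces.of_forall (fun U => ⟨(elt a).val U, (elt b).val U, rlt_iff.2 h3, rlt_iff.2 h4, ?_⟩) q
  refine forall_mem (b := setN ρ) (Φ := fun U y => RLt Mod.mem (CC.val U) ((elt a).val U) y →
    RLt Mod.mem (CC.val U) y ((elt b).val U) → Mod.mem y ((cylN ρ x k).val U))
    (fun j s hs => ⟨s, le_rfl, fun U hU g1 g2 => ?_⟩) U
  exact (forces_mem_setN (ρ := fun q x' => ρ q x' ∧ Agree k x x')
    ⟨j.2, h2.trans (h5 _ (rlt_iff.1 g1) (rlt_iff.1 g2))⟩).mono hs U hU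

theorem exists_cyl {ρ : PP → Set ℕ → Prop} {p : PP} {V : Name PP} {x : Set ℕ}
    (h1 : Forces p fun U => Mod.mem (V.val U) ((topN (setN ρ)).val U))
    (h2 : Forces p fun U => Mod.mem ((ptN x).val U) (V.val U)) :
    ∃ q ≤ p, ∃ k, Forces q fun U => IsSub Mod.mem ((cylN ρ x k).val U) (V.val U) := by
  have h3 := (h1.and h2).imp fun U h => (((isRealSet ρ U).2 _).1 h.1).2 _ h.2
  obtain ⟨a, h4⟩ := h3.exists_name
  obtain ⟨b, h5⟩ := h4.exists_name
  obtain ⟨q, hq, a', ha⟩ := dec_real (C := CC) (h5.imp fun U h => (rlt_mem h.1).1)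
  obtain ⟨r, hr, b', hb⟩ := dec_real (C := CC) ((h5.mono hq).imp fun U h => (rlt_mem h.2.1).2)
  have h6 : Forces r fun U => RLt Mod.mem (CC.val U) ((elt a').val U) ((ptN x).val U) ∧
      RLt Mod.mem (CC.val U) ((ptN x).val U) ((elt b').val U) ∧
      ∀ y, Mod.mem y ((setN ρ).val U) → RLt Mod.mem (CC.val U) ((elt a').val U) y →
        RLt Mod.mem (CC.val U) y ((elt b').val U) → Mod.mem y (V.val U) := fun U hU => by
    have := h5.mono (hr.trans hq) U hU
    beta_reduce at this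
    rwa [ha.mono hr U hU, hb U hU] at this
  obtain ⟨k, hk⟩ := exists_emb.choose_spec.2.1 x a' b'
    (forces_const (h6.imp fun U h => rlt_iff.1 h.1)) (forces_const (h6.imp fun U h => rlt_iff.1 h.2.1))
  refine ⟨r, hr.trans hq, k, forces_forall_mem (b := cylN ρ x k) fun i s hs hi =>
    ⟨s, le_rfl, fun U hU => ?_⟩⟩
  exact (h6.mono hs U hU).2.2 _ ((forces_mem_setN i.2.1).mono hi U hU)
    (rlt_iff.2 (hk _ i.2.2).1) (rlt_iff.2 (hk _ i.2.2).2)

/-- the name of a product set -/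
def prodN (a b : Name PP) : Name PP :=
  .mk {z : a.idx × b.idx × PP // z.2.2 ≤ a.cond z.1 ∧ z.2.2 ≤ b.cond z.2.1}
    (fun z => pairName (a.el z.1.1) (b.el z.1.2.1)) fun z => z.1.2.2

theorem mem_prodN (a b : Name PP) (U : Gen PP) (z : Mod U) : Mod.mem z ((prodN a b).val U) ↔
    ∃ x y, IsPair Mod.mem z x y ∧ Mod.mem x (a.val U) ∧ Mod.mem y (b.val U) := by
  constructor
  · exact forall_mem (b := prodN a b) (Φ := fun U z => ∃ x y, IsPair Mod.mem z x y ∧
      Mod.mem x (a.val U) ∧ Mod.mem y (b.val U)) (fun i q hq => ⟨q, le_rfl,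
        (((forces_el_mem _ i.2.1).and (forces_el_mem _ i.2.2)).mono hq).imp fun U h =>
          ⟨_, _, isPair_pairName _ _ U, h⟩⟩) U z
  · rintro ⟨x, y, h1, h2, h3⟩
    refine forall_mem (b := a) (Φ := fun U x => ∀ y, Mod.mem y (b.val U) →
      ∀ z, IsPair Mod.mem z x y → Mod.mem z ((prodN a b).val U)) (fun i q hq => ⟨q, le_rfl,
        forces_forall_mem fun j r hr hj => ⟨r, le_rfl, ?_⟩⟩) U x h2 y h3 z h1
    exact (forces_el_mem (b := prodN a b) ⟨(i, j, r), hr.trans hq, hj⟩ le_rfl).imp fun U h z hz =>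
      (isZFC U).pair_unique (isPair_pairName _ _ U) hz ▸ h

/-- the name of a product topology -/
noncomputable def ptopN (X TX Y TY : Name PP) : Name PP := sepName (powName (prodN X Y)) fun U W =>
  ∀ x y, App Mod.mem W x y → ∃ A B, Mod.mem A (TX.val U) ∧ Mod.mem B (TY.val U) ∧ Mod.mem x A ∧
    Mod.mem y B ∧ ∀ x' y', Mod.mem x' A → Mod.mem y' B → App Mod.mem W x' y'

theorem isProd (X TX Y TY : Name PP) (U : Gen PP) : IsProd Mod.mem (X.val U) (TX.val U) (Y.val U)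
    (TY.val U) ((prodN X Y).val U) ((ptopN X TX Y TY).val U) := by
  refine ⟨mem_prodN X Y U, fun W => ?_⟩
  rw [ptopN, mem_sepName, mem_powName]
  rfl

/-- `V ∈ f(n)` -/
def InCov {U : Gen PP} (f : Mod U) (n : ℕ) (V : Mod U) : Prop :=
  ∃ F, App Mod.mem f ((natName n).val U) F ∧ Mod.mem V F

instance (f V : Name PP) (n : ℕ) : Clopen fun U : Gen PP => InCov (f.val U) n (V.val U) := by
  unfold InCov; infer_instance

theorem IsCovers.exists_mem {U : Gen PP} {S T f x : Mod U}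
    (h : IsCovers Mod.mem (CC.val U) S T f) (n : ℕ) (hx : Mod.mem x S) :
    ∃ V, InCov f n V ∧ Mod.mem V T ∧ Mod.mem x V := by
  obtain ⟨F, hF⟩ := h.2.1 _ (nat_mem_w n U)
  obtain ⟨h1, h2⟩ := ((isZFC U).app_val h hF).2
  obtain ⟨V, h3, h4⟩ := h2 x hx
  exact ⟨V, ⟨F, hF, h3⟩, h1 V h3, h4⟩

/-- the name of a selection -/
noncomputable def selN {ι : Type} (N : ℕ → Finset ι) (V : ℕ → ι → Name PP) : Name PP :=
  seqName fun n => fam fun i : N n => V n i

theorem inStep_selN {ι : Type} {N : ℕ → Finset ι} {V : ℕ → ι → Name PP} {U : Gen PP} {n : ℕ}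
    {i : ι} (hi : i ∈ N n) {x : Mod U} (hx : Mod.mem x ((V n i).val U)) :
    InStep Mod.mem ((selN N V).val U) ((natName n).val U) x :=
  ⟨_, _, app_seq.2 rfl, (mem_fam_finset (N n) (V n) U _).2 ⟨i, hi, rfl⟩, hx⟩

theorem isChoice_selN {ι : Type} {N : ℕ → Finset ι} {V : ℕ → ι → Name PP} {p : PP}
    {S T f : Name PP}
    (hf : Forces p fun U => IsCovers Mod.mem (CC.val U) (S.val U) (T.val U) (f.val U))
    (h : ∀ n, ∀ i ∈ N n, Forces p fun U => InCov (f.val U) n ((V n i).val U)) :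
    Forces p fun U => IsChoice Mod.mem (CC.val U) (f.val U) ((selN N V).val U) := by
  refine Forces.and (forces_isFunOn_seq (V := fun U => IsFin Mod.mem (CC.val U)) fun n =>
    Forces.of_forall (isFin_fam _) p) ?_
  have : Forces p fun U => ∀ n G, App Mod.mem ((selN N V).val U) n G →
      ∀ F, App Mod.mem (f.val U) n F → IsSub Mod.mem G F := by
    refine forces_forall_app_graph fun n q hq _ => ⟨q, le_rfl, fun U hU F hF x hx => ?_⟩
    obtain ⟨i, hi, rfl⟩ := (mem_fam_finset (N n) (V n) U _).1 hx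
    obtain ⟨F', h1, h2⟩ := (h n i hi).mono hq U hU
    exact (hf.mono hq U hU).2.2 _ _ _ h1 hF ▸ h2
  exact this.imp fun U h n F G h1 h2 => h n G h2 F h1

theorem dec_choice {p : PP} {f g : Name PP}
    (h : Forces p fun U => IsChoice Mod.mem (CC.val U) (f.val U) (g.val U)) (n : ℕ) :
    ∃ q ≤ p, ∃ (s : Finset ℕ) (a : ℕ → Name PP),
      (∀ i ∈ s, Forces q fun U => ∀ F, App Mod.mem (f.val U) ((natName n).val U) F →
        Mod.mem ((a i).val U) F) ∧
      Forces q fun U => ∀ x, InStep Mod.mem (g.val U) ((natName n).val U) x →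
        ∃ i ∈ s, Mod.mem x ((a i).val U) := by
  obtain ⟨G, hG⟩ := (h.imp fun U h => h.1.2.1 _ (nat_mem_w n U)).exists_name
  obtain ⟨q, hq, s, a, h1⟩ := fin_cover (C := CC)
    ((h.and hG).imp fun U h => ((isZFC U).app_val h.1.1 h.2).2)
  refine ⟨q, hq, s, a, fun i hi U hU F hF => (h.mono hq U hU).2 _ _ _ hF (hG.mono hq U hU) _
    ((h1 U hU _).2 ⟨i, hi, rfl⟩), ?_⟩
  rintro U hU x ⟨G', V, g1, g2, g3⟩
  rw [(h.mono hq U hU).1.2.2 _ _ _ g1 (hG.mono hq U hU)] at g2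
  obtain ⟨i, hi, rfl⟩ := (h1 U hU _).1 g2
  exact ⟨i, hi, g3⟩

end Pool.Agent.P.MP_d1514d_gt
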