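import Mathlib

set_option autoImplicit false

/-! The countably closed poset of approximations. -/

open Set Filter

namespace Pool.Agent.P.MP_d1514d_gt

/-- two subsets of `ℕ` agree below `k` -/
def Agree (k : ℕ) (x x' : Set ℕ) : Prop := ∀ i < k, (i ∈ x ↔ i ∈ x')

theorem Agree.refl (k : ℕ) (x : Set ℕ) : Agree k x x := fun _ _ => Iff.rfl

theorem Agree.symm {k : ℕ} {x y : Set ℕ} (h : Agree k x y) : Agree k y x :=
  fun i hi => (h i hi).symm

theorem Agree.trans {k : ℕ} {x y z : Set ℕ} (h : Agree k x y) (h' : Agree k y z) : Agree k x z :=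
  fun i hi => (h i hi).trans (h' i hi)

theorem Agree.mono {k l : ℕ} {x y : Set ℕ} (h : Agree k x y) (hl : l ≤ k) : Agree l x y :=
  fun i hi => h i (hi.trans_le hl)

/-- a point with its sparse part and its growth function -/
structure Pt where
  /-- the point -/
  y : Set ℕ
  /-- a sparse subset -/
  e : Set ℕ
  /-- growth function -/
  g : ℕ → ℕ

/-- the region that later points avoid -/
def Pt.R (t : Pt) : Set ℕ := {k | ∃ m ∈ t.y, m ≤ k ∧ k < t.g m}

/-- the complement of the regions of the points of `E` -/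
def free (E : Set Pt) : Set ℕ := {k | ∀ t ∈ E, k ∉ t.R}

theorem free_anti {E E' : Set Pt} (h : E ⊆ E') : free E' ⊆ free E := fun _ hk t ht => hk t (h ht)

/-- `k` consecutive slots between `a` and `d` -/
def Slots (G : Set (Set ℕ)) (B : Set ℕ) (a : ℕ) : ℕ → ℕ → Prop
  | d, 0 => a ≤ d
  | d, k + 1 => ∃ d' ≤ d, (∀ s ⊆ Iio a, ∃ t ⊆ B ∩ Ico d' d, s ∪ t ∈ G) ∧ Slots G B a d' k

theorem Slots.le {G : Set (Set ℕ)} {B : Set ℕ} {a d k : ℕ} (h : Slots G B a d k) : a ≤ d := by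
  induction k generalizing d with
  | zero => exact h
  | succ k ih => obtain ⟨d', h1, -, h3⟩ := h; exact (ih h3).trans h1

theorem Slots.mono {G G' : Set (Set ℕ)} {B B' : Set ℕ} {a a' d d' k : ℕ} (h : Slots G B a d k)
    (hG : G ⊆ G') (hB : B ∩ Ico a d ⊆ B') (ha : a' ≤ a) (hd : d ≤ d') : Slots G' B' a' d' k := by
  induction k generalizing d d' with
  | zero => exact ha.trans (le_trans h hd)
  | succ k ih =>
    obtain ⟨c, h1, h2, h3⟩ := h
    refine ⟨c, h1.trans hd, fun s hs => ?_, ih h3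
      (fun x hx => hB ⟨hx.1, hx.2.1, hx.2.2.trans_le h1⟩) le_rfl⟩
    obtain ⟨t, ht, h4⟩ := h2 s (hs.trans (Iio_subset_Iio ha))
    exact ⟨t, fun x hx => ⟨hB ⟨(ht hx).1, h3.le.trans (ht hx).2.1, (ht hx).2.2⟩, (ht hx).2.1,
      (ht hx).2.2.trans_le hd⟩, hG h4⟩

theorem Slots.of_le {G : Set (Set ℕ)} {B : Set ℕ} {a d k l : ℕ} (h : Slots G B a d k)
    (hl : l ≤ k) : Slots G B a d l := by
  induction hl generalizing d with
  | refl => exact h
  | step _ ih =>
    obtain ⟨c, h1, -, h3⟩ := h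
    exact (ih h3).mono subset_rfl inter_subset_left le_rfl h1

/-- a promise: a sequence of clopen sets -/
structure Prom where
  /-- length that decides membership -/
  h : ℕ → ℕ
  /-- the clopen sets -/
  G : ℕ → Set (Set ℕ)
  det : ∀ n x x', Agree (h n) x x' → x ∈ G n → x' ∈ G n

/-- the promise can be kept -/
def Keeps (D : Set Pt) (π : Prom) : Prop :=
  ∀ E ⊆ D, E.Finite → ∀ a k, ∃ n, (∀ t ∈ E, t.y ∈ π.G n) ∧ Slots (π.G n) (free E) a (π.h n) k

/-- conditions -/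
structure PP where
  /-- points -/
  D : Set Pt
  /-- promises -/
  Pr : Set Prom
  cD : D.Countable
  cP : Pr.Countable
  lt : ∀ t ∈ D, ∀ m, m < t.g m
  sub : ∀ t ∈ D, t.e ⊆ t.y
  inf : ∀ t ∈ D, t.e.Infinite
  ad : ∀ t ∈ D, ∀ t' ∈ D, t ≠ t' → (t.y ∩ t'.y).Finite
  room : ∀ E ⊆ D, E.Finite → (free E).Infinite
  keeps : ∀ π ∈ Pr, Keeps D π

instance : Preorder PP where
  le q p := p.D ⊆ q.D ∧ p.Pr ⊆ q.Pr ∧
    ∀ t ∈ p.D, ∀ t' ∈ q.D, t' ∉ p.D → (t'.y ∩ t.R).Finite ∧ ∀ᶠ m in atTop, t.g m ≤ t'.g m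
  le_refl p := ⟨subset_rfl, subset_rfl, fun _ _ _ h h' => absurd h h'⟩
  le_trans r q p h h' := ⟨h'.1.trans h.1, h'.2.1.trans h.2.1, fun t ht t' ht' hn => by
    by_cases h1 : t' ∈ q.D
    · exact h'.2.2 t ht t' h1 hn
    · exact h.2.2 t (h'.1 ht) t' ht' h1⟩

theorem PP.le_def {q p : PP} : q ≤ p ↔ p.D ⊆ q.D ∧ p.Pr ⊆ q.Pr ∧
    ∀ t ∈ p.D, ∀ t' ∈ q.D, t' ∉ p.D → (t'.y ∩ t.R).Finite ∧ ∀ᶠ m in atTop, t.g m ≤ t'.g m :=
  Iff.rfl

instance : OrderTop PP where
  top := ⟨∅, ∅, countable_empty, countable_empty, fun _ h => h.elim, fun _ h => h.elim,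
    fun _ h => h.elim, fun _ h => h.elim, fun E hE _ => by
      have : free E = univ := eq_univ_of_forall fun k t ht => (hE ht).elim
      rw [this]; exact infinite_univ, fun _ h => h.elim⟩
  le_top _ := ⟨empty_subset _, empty_subset _, fun _ h => h.elim⟩

theorem sigma (p : ℕ → PP) (h : ∀ n, p (n + 1) ≤ p n) : ∃ q, ∀ i, q ≤ p i := by
  have ha : Antitone p := antitone_nat_of_succ_le h
  have hm : Monotone fun i => (p i).D := fun i j hij => (ha hij).1
  have hfin : ∀ E ⊆ ⋃ i, (p i).D, E.Finite → ∀ i, ∃ j, i ≤ j ∧ E ⊆ (p j).D := by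
    intro E hE hf i
    obtain ⟨j, hj⟩ := hm.directed_le.exists_mem_subset_of_finset_subset_biUnion
      (s := hf.toFinset) (by simpa using hE)
    exact ⟨max i j, le_max_left _ _, (by simpa using hj : E ⊆ (p j).D).trans (hm (le_max_right _ _))⟩
  refine ⟨⟨⋃ i, (p i).D, ⋃ i, (p i).Pr, countable_iUnion fun i => (p i).cD,
    countable_iUnion fun i => (p i).cP, ?_, ?_, ?_, ?_, ?_, ?_⟩, fun i =>
      ⟨subset_iUnion (fun i => (p i).D) i, subset_iUnion (fun i => (p i).Pr) i, ?_⟩⟩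
  · intro t ht; obtain ⟨i, hi⟩ := mem_iUnion.1 ht; exact (p i).lt t hi
  · intro t ht; obtain ⟨i, hi⟩ := mem_iUnion.1 ht; exact (p i).sub t hi
  · intro t ht; obtain ⟨i, hi⟩ := mem_iUnion.1 ht; exact (p i).inf t hi
  · intro t ht t' ht'
    obtain ⟨i, hi⟩ := mem_iUnion.1 ht
    obtain ⟨j, hj⟩ := mem_iUnion.1 ht'
    exact (p (max i j)).ad t (hm (le_max_left _ _) hi) t' (hm (le_max_right _ _) hj)
  · intro E hE hf
    obtain ⟨j, -, hj⟩ := hfin E hE hf 0
    exact (p j).room E hj hf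
  · intro π hπ E hE hf
    obtain ⟨i, hi⟩ := mem_iUnion.1 hπ
    obtain ⟨j, hij, hj⟩ := hfin E hE hf i
    exact (p j).keeps π ((ha hij).2.1 hi) E hj hf
  · intro t ht t' ht' hn
    obtain ⟨j, hj⟩ := mem_iUnion.1 ht'
    exact (ha (le_max_left i j)).2.2 t ht t' (hm (le_max_right _ _) hj) hn

theorem exists_exhaust {α : Type} {D : Set α} (h : D.Countable) : ∃ E : ℕ → Set α,
    (∀ j, E j ⊆ D) ∧ (∀ j, (E j).Finite) ∧ ∀ F ⊆ D, F.Finite → ∀ᶠ j in atTop, F ⊆ E j := by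
  obtain ⟨f, hf⟩ := countable_iff_exists_injOn.1 h
  refine ⟨fun j => D ∩ f ⁻¹' Iio j, fun _ => inter_subset_left, fun j =>
    Finite.of_finite_image (f := f) ((finite_Iio j).subset ?_) (hf.mono inter_subset_left),
    fun F hF hfin => ?_⟩
  · rintro _ ⟨x, hx, rfl⟩; exact hx.2
  · obtain ⟨b, hb⟩ := (hfin.image f).bddAbove
    filter_upwards [eventually_gt_atTop b] with j hj x hx
    exact ⟨hF hx, (hb (mem_image_of_mem f hx)).trans_lt hj⟩

theorem exists_sparse {y : Set ℕ} (hy : y.Infinite) (H : ℕ → ℕ) :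
    ∃ e ⊆ y, e.Infinite ∧ ∀ n, (e ∩ Iio (H n)).ncard ≤ n := by
  choose c hc hc' using fun j => hy.exists_gt (j + ∑ i ∈ Finset.range (j + 1), H i)
  refine ⟨range c, by rintro _ ⟨j, rfl⟩; exact hc j, infinite_of_forall_exists_gt fun j =>
    ⟨c j, ⟨j, rfl⟩, lt_of_le_of_lt (Nat.le_add_right _ _) (hc' j)⟩, fun n => ?_⟩
  have : range c ∩ Iio (H n) ⊆ c '' Iio n := by
    rintro _ ⟨⟨j, rfl⟩, hj⟩
    refine ⟨j, ?_, rfl⟩
    by_contra hlt
    have h1 : H n ≤ ∑ i ∈ Finset.range (j + 1), H i := Finset.single_le_sum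
      (fun _ _ => Nat.zero_le _) (Finset.mem_range.2 (by simp at hlt; omega))
    have h2 := hc' j
    simp only [mem_Iio] at hj
    omega
  calc _ ≤ (c '' Iio n).ncard := ncard_le_ncard this ((finite_Iio n).image c)
    _ ≤ (Iio n).ncard := ncard_image_le (finite_Iio n)
    _ = n := by simp

theorem exists_dom {D : Set Pt} (h : D.Countable) (g0 : ℕ → ℕ) : ∃ g : ℕ → ℕ, (∀ m, m < g m) ∧
    (∀ m, g0 m ≤ g m) ∧ ∀ t ∈ D, ∀ᶠ m in atTop, t.g m ≤ g m := by
  obtain ⟨E, -, h2, h3⟩ := exists_exhaust h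
  choose b hb using fun m => ((h2 m).image fun t => t.g m).bddAbove
  refine ⟨fun m => m + 1 + g0 m + b m, fun m => by beta_reduce; omega,
    fun m => by beta_reduce; omega, fun t ht => ?_⟩
  filter_upwards [h3 {t} (singleton_subset_iff.2 ht) (finite_singleton t)] with m hm
  have := hb m (mem_image_of_mem (fun t => t.g m) (hm rfl))
  beta_reduce at this ⊢
  omega

/-- a new promise -/
theorem PP.exists_prom (p : PP) (sm : ℕ → Set ℕ → ℕ → Prop)
    (h1 : ∀ n x x' k k', Agree k x x' → k ≤ k' → sm n x k → sm n x' k')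
    (h2 : ∀ n, ∀ t ∈ p.D, ∃ k, sm n t.y k)
    (h3 : ∀ n, ∀ E ⊆ p.D, E.Finite → ∀ c, ∀ s ⊆ Iio c, ∃ t d, t ⊆ free E ∩ Ico c d ∧
      sm n (s ∪ t) d) :
    ∃ q ≤ p, ∃ π ∈ q.Pr, ∀ n x, x ∈ π.G n → sm n x (π.h n) := by
  obtain ⟨E, e1, e2, e3⟩ := exists_exhaust p.cD
  have key : ∀ n k, ∃ d, Slots {x | sm n x d} (free (E n)) n d k := by
    intro n k
    induction k with
    | zero => exact ⟨n, le_rfl⟩
    | succ k ih =>
      obtain ⟨c, hc⟩ := ih
      choose! t d ht hd using fun s (hs : s ∈ {s | s ⊆ Iio n}) =>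
        h3 n (E n) (e1 n) (e2 n) c s (hs.trans (Iio_subset_Iio hc.le))
      obtain ⟨b, hb⟩ := ((finite_Iio n).finite_subsets.image d).bddAbove
      refine ⟨max b c, c, le_max_right _ _, fun s hs => ⟨t s, fun x hx => ?_, ?_⟩,
        hc.mono (fun x hx => h1 n x x c _ (Agree.refl _ _) (le_max_right _ _) hx)
          inter_subset_left le_rfl le_rfl⟩
      · have := ht s hs hx
        exact ⟨this.1, this.2.1, this.2.2.trans_le
          ((hb (mem_image_of_mem d hs)).trans (le_max_left _ _))⟩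
      · exact h1 n _ _ _ _ (Agree.refl _ _) ((hb (mem_image_of_mem d hs)).trans (le_max_left _ _))
          (hd s hs)
  have key2 : ∀ n, ∃ d, Slots {x | sm n x d} (free (E n)) n d n ∧ ∀ t ∈ E n, sm n t.y d := by
    intro n
    obtain ⟨d, hd⟩ := key n n
    choose! k hk using h2 n
    obtain ⟨b, hb⟩ := ((e2 n).image k).bddAbove
    exact ⟨max b d, hd.mono (fun x hx => h1 n x x d _ (Agree.refl _ _) (le_max_right _ _) hx)
      inter_subset_left le_rfl (le_max_right _ _), fun t ht => h1 n _ _ _ _ (Agree.refl _ _)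
        ((hb (mem_image_of_mem k ht)).trans (le_max_left _ _)) (hk t (e1 n ht))⟩
  choose h hh hh' using key2
  let π : Prom := ⟨h, fun n => {x | sm n x (h n)}, fun n x x' ha hx => h1 n x x' _ _ ha le_rfl hx⟩
  refine ⟨{ p with
    Pr := insert π p.Pr
    cP := p.cP.insert π
    keeps := ?_ }, ⟨subset_rfl, subset_insert _ _, fun _ _ _ h h' => absurd h h'⟩, π,
      mem_insert _ _, fun n x hx => hx⟩
  rintro ρ (rfl | hρ)
  · intro F hF hfin a k
    obtain ⟨n, n1, n2, n3⟩ := ((e3 F hF hfin).and ((eventually_ge_atTop a).and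
      (eventually_ge_atTop k))).exists
    exact ⟨n, fun t ht => hh' n t (n1 ht), ((hh n).of_le n3).mono subset_rfl
      (inter_subset_left.trans (free_anti n1)) n2 le_rfl⟩
  · exact p.keeps ρ hρ

end Pool.Agent.P.MP_d1514d_gt
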