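import Pool.Agent.P.MP_d1514d_gt.Sch

set_option autoImplicit false
set_option synthInstance.maxSize 100000

/-! The generic set `X` is productively `u`-Menger for every free ultrafilter `u`. -/

open Set Filter Pool.Agent.Lib.PosetForcing

namespace Pool.Agent.P.MP_d1514d_gt

/-- the name of a set of natural numbers -/
noncomputable def natSetN (B : Set ℕ) : Name PP := fam fun n : B => natName n

theorem natSetN_sub_w (B : Set ℕ) (U : Gen PP) :
    IsSub Mod.mem ((natSetN B).val U) (CC.val U).w :=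
  forall_mem_fam (Φ := fun U z => Mod.mem z (CC.val U).w) (fun (i : B) U => nat_mem_w i U) U

theorem mem_natSetN {B : Set ℕ} {n : ℕ} {U : Gen PP} :
    Mod.mem ((natName n).val U) ((natSetN B).val U) ↔ n ∈ B :=
  ⟨fun h => forall_mem_fam (A := fun n : B => (natName n : Name PP))
    (Φ := (fun (U : Gen PP) (z : Mod U) => z = (natName n).val U → n ∈ B :))
    (fun (i : B) U h => natName_inj (U := U) h ▸ i.2) U _ h rfl,
    fun h => mem_fam (fun n : B => natName n) ⟨n, h⟩ U⟩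

theorem natSetN_mono {A B : Set ℕ} (h : A ⊆ B) (U : Gen PP) :
    IsSub Mod.mem ((natSetN A).val U) ((natSetN B).val U) :=
  forall_mem_fam (Φ := fun U z => Mod.mem z ((natSetN B).val U))
    (fun (i : A) _ => mem_natSetN.2 (h i.2)) U

theorem mem_natSetN_compl (A : Set ℕ) (U : Gen PP) (x : Mod U) :
    Mod.mem x ((natSetN Aᶜ).val U) ↔ Mod.mem x (CC.val U).w ∧ ¬ Mod.mem x ((natSetN A).val U) := by
  have := forall_mem_omega (Φ := fun U x => Mod.mem x ((natSetN Aᶜ).val U) ↔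
    ¬ Mod.mem x ((natSetN A).val U)) (fun n U => by simp only [mem_natSetN]; rfl) U x
  exact ⟨fun h => ⟨natSetN_sub_w _ U x h, (this (natSetN_sub_w _ U x h)).1 h⟩,
    fun h => (this h.1).2 h.2⟩

theorem mem_natSetN_inter (A B : Set ℕ) (U : Gen PP) (x : Mod U) :
    Mod.mem x ((natSetN (A ∩ B)).val U) ↔
      Mod.mem x ((natSetN A).val U) ∧ Mod.mem x ((natSetN B).val U) := by
  have := forall_mem_omega (Φ := fun U x => Mod.mem x ((natSetN (A ∩ B)).val U) ↔
    Mod.mem x ((natSetN A).val U) ∧ Mod.mem x ((natSetN B).val U))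
    (fun n U => by simp only [mem_natSetN]; rfl) U x
  exact ⟨fun h => (this (natSetN_sub_w _ U x h)).1 h,
    fun h => (this (natSetN_sub_w _ U x h.1)).2 h⟩

theorem dec_natSet {p : PP} {B : Name PP}
    (h : Forces p fun U => IsSub Mod.mem (B.val U) (CC.val U).w) :
    ∃ q ≤ p, ∃ A, Forces q fun U => B.val U = (natSetN A).val U := by
  obtain ⟨q, hq, h1⟩ := hσ.exists_forall p (fun (n : ℕ) q =>
    (Forces q fun U => Mod.mem ((natName n).val U) (B.val U)) ∨
      Forces q fun U => ¬ Mod.mem ((natName n).val U) (B.val U))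
    (fun _ _ _ h h' => h'.imp (·.mono h) (·.mono h)) fun _ q _ => exists_decide _ q
  let A : Set ℕ := {n | Forces q fun U => Mod.mem ((natName n).val U) (B.val U)}
  have h2 : Forces q fun U => ∀ x, Mod.mem x (omegaName.val U) →
      (Mod.mem x (B.val U) ↔ Mod.mem x ((natSetN A).val U)) :=
    forces_forall_mem_omega fun n r hr => ⟨r, le_rfl, fun U hU => ⟨fun g =>
      mem_natSetN.2 ((h1 n).resolve_right fun g' => g'.mono hr U hU g),
      fun g => Forces.mono (mem_natSetN.1 g) hr U hU⟩⟩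
  exact ⟨q, hq, A, fun U hU => Mod.ext _ _ fun z => ⟨fun g =>
    (h2 U hU z (h.mono hq U hU z g)).1 g, fun g => (h2 U hU z (natSetN_sub_w _ U z g)).2 g⟩⟩

/-- `q` puts `A` into the ultrafilter -/
def Ul (u : Name PP) (q : PP) (A : Set ℕ) : Prop :=
  Forces q fun U => Mod.mem ((natSetN A).val U) (u.val U)

theorem Ul.inter {u : Name PP} {q : PP} {A B : Set ℕ}
    (hu : Forces q fun U => IsFreeUltra Mod.mem (CC.val U) (u.val U)) (h1 : Ul u q A)
    (h2 : Ul u q B) : Ul u q (A ∩ B) := fun U hU =>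
  (hu U hU).2.2.1 _ _ _ (h1 U hU) (h2 U hU) (mem_natSetN_inter A B U)

theorem Ul.ev {u : Name PP} {q : PP} {A B : Set ℕ}
    (hu : Forces q fun U => IsFreeUltra Mod.mem (CC.val U) (u.val U)) (h1 : Ul u q A)
    (h2 : ∀ᶠ n in atTop, n ∈ A → n ∈ B) : Ul u q B := by
  obtain ⟨c, hc⟩ := eventually_atTop.1 h2
  have h3 : Ul u q (Iio c)ᶜ := fun U hU =>
    ((hu U hU).2.2.2 _ _ (natSetN_sub_w (Iio c) U) (mem_natSetN_compl _ U)).resolve_left
      fun h => ((hu U hU).1 _ h).2 (isFin_fam _ U)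
  exact fun U hU => (hu U hU).2.1 _ _ (h1.inter hu h3 U hU)
    (natSetN_mono (fun n hn => hc n (not_lt.1 hn.2) hn.1) U) (natSetN_sub_w _ U)

theorem Ul.dec {u : Name PP} {q : PP}
    (hu : Forces q fun U => IsFreeUltra Mod.mem (CC.val U) (u.val U)) (A : Set ℕ) :
    ∃ r ≤ q, Ul u r A ∨ Ul u r Aᶜ := by
  obtain ⟨r, hr, h⟩ := exists_decide (fun U => Mod.mem ((natSetN A).val U) (u.val U)) q
  exact ⟨r, hr, h.imp id fun h U hU => ((hu.mono hr U hU).2.2.2 _ _ (natSetN_sub_w A U)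
    (mem_natSetN_compl _ U)).resolve_left (h U hU)⟩

theorem IsTopOn.exists_inter {U : Gen PP} {Z T z : Mod U} (h : IsTopOn Mod.mem Z T)
    (hz : Mod.mem z Z) {ι : Type} (s : Finset ι) (B : ι → Mod U)
    (hB : ∀ i ∈ s, Mod.mem (B i) T ∧ Mod.mem z (B i)) :
    ∃ O, Mod.mem O T ∧ Mod.mem z O ∧ ∀ i ∈ s, IsSub Mod.mem O (B i) := by
  classical
  induction s using Finset.induction_on with
  | empty => exact ⟨Z, h.2.1, hz, by simp⟩
  | insert a s _ ih =>
    obtain ⟨O, h1, h2, h3⟩ := ih fun i hi => hB i (Finset.mem_insert_of_mem hi)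
    obtain ⟨b, hb⟩ := (B a).exists_name
    obtain ⟨O', h4⟩ := Mod.sep (fun U x => Mod.mem x (b.val U)) U O
    rw [hb] at h4
    have h5 := hB a (Finset.mem_insert_self _ _)
    refine ⟨O', h.2.2.1 _ _ _ h1 h5.1 h4, (h4 z).2 ⟨h2, h5.2⟩, fun i hi x hx => ?_⟩
    rcases Finset.mem_insert.1 hi with rfl | hi
    · exact ((h4 x).1 hx).2
    · exact h3 i hi x ((h4 x).1 hx).1

section
variable {u Z τ S T f : Name PP}

/-- the box over a cylinder lies in `V` -/
def Box (x : Set ℕ) (k : ℕ) {U : Gen PP} (O V : Mod U) : Prop :=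
  ∀ w z, Mod.mem w ((cylN ρX x k).val U) → Mod.mem z O → App Mod.mem V w z

instance (x : Set ℕ) (k : ℕ) (O V : Name PP) :
    Clopen fun U : Gen PP => Box x k (O.val U) (V.val U) := by
  unfold Box; infer_instance

/-- the induced covers of the second factor -/
noncomputable def indN (τ f : Name PP) (L : ℕ → Finset (Set ℕ)) (n : ℕ) : Name PP :=
  unionName (fam fun k : ℕ => sepName τ fun U O => ∀ x ∈ L n, ∃ V, InCov (f.val U) n V ∧ Box x k O V)

theorem covers_ind {p : PP} (h1 : Forces p fun U => IsTopOn Mod.mem (Z.val U) (τ.val U))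
    (h2 : Forces p fun U => IsProd Mod.mem ((setN ρX).val U) ((topN (setN ρX)).val U) (Z.val U)
      (τ.val U) (S.val U) (T.val U))
    (h3 : Forces p fun U => IsCovers Mod.mem (CC.val U) (S.val U) (T.val U) (f.val U))
    {L : ℕ → Finset (Set ℕ)} (hL : ∀ n, ∀ x ∈ L n, ρX p x) :
    Forces p fun U => IsCovers Mod.mem (CC.val U) (Z.val U) (τ.val U)
      ((seqName (indN τ f L)).val U) := by
  refine forces_isFunOn_seq (V := fun U F => IsSub Mod.mem F (τ.val U) ∧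
    ∀ x, Mod.mem x (Z.val U) → ∃ V, Mod.mem V F ∧ Mod.mem x V) fun n => Forces.and
      (Forces.of_forall (fun U O hO => ?_) p) (forces_forall fun z => forces_imp fun q hq hz => ?_)
  · obtain ⟨y, g1, g2⟩ := (mem_unionName _ U O).1 hO
    exact forall_mem_fam (Φ := fun U y => ∀ O, Mod.mem O y → Mod.mem O (τ.val U))
      (fun k U O h => ((mem_sepName _ _ U O).1 h).1) U y g1 O g2
  · obtain ⟨r, hr, g1⟩ := hσ.exists_forall q (fun (x : L n) r => ∃ k, ∃ V B : Name PP,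
      Forces r fun U => InCov (f.val U) n (V.val U) ∧ Mod.mem (B.val U) (τ.val U) ∧
        Mod.mem (z.val U) (B.val U) ∧ Box x k (B.val U) (V.val U))
      (fun _ _ _ h ⟨k, V, B, h'⟩ => ⟨k, V, B, h'.mono h⟩) fun x r hr => by
        have hp := hr.trans hq
        have g2 : Forces r fun U => ∃ V, InCov (f.val U) n V ∧ ∃ A B,
            Mod.mem A ((topN (setN ρX)).val U) ∧ Mod.mem B (τ.val U) ∧
            Mod.mem ((ptN x).val U) A ∧ Mod.mem (z.val U) B ∧
            ∀ x' y', Mod.mem x' A → Mod.mem y' B → App Mod.mem V x' y' := fun U hU => by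
          obtain ⟨V, g3, g4, g5⟩ := (h3.mono hp U hU).exists_mem n
            (((h2.mono hp U hU).1 ((pairName (ptN x) z).val U)).2 ⟨_, _, isPair_pairName _ _ U,
              (forces_mem_setN (hL n x x.2)).mono hp U hU, hz.mono hr U hU⟩)
          exact ⟨V, g3, (((h2.mono hp U hU).2 V).1 g4).2 _ _ ⟨_, g5, isPair_pairName _ _ U⟩⟩
        obtain ⟨V, g3⟩ := g2.exists_name
        obtain ⟨A, g4⟩ := (g3.imp fun _ h => h.2).exists_name
        obtain ⟨B, g5⟩ := g4.exists_name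
        obtain ⟨s, hs, k, g6⟩ := exists_cyl (g5.imp fun _ h => h.1) (g5.imp fun _ h => h.2.2.1)
        exact ⟨s, hs, k, V, B, fun U hU => ⟨(g3.mono hs U hU).1, (g5.mono hs U hU).2.1,
          (g5.mono hs U hU).2.2.2.1, fun w z' g7 g8 =>
            (g5.mono hs U hU).2.2.2.2 w z' (g6 U hU w g7) g8⟩⟩
    choose k V B g2 using g1
    obtain ⟨b, hb⟩ := (finite_range k).bddAbove
    refine ⟨r, hr, fun U hU => ?_⟩
    obtain ⟨O, g3, g4, g5⟩ := (h1.mono (hr.trans hq) U hU).exists_inter (hz.mono hr U hU)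
      Finset.univ (fun x => (B x).val U) fun x _ => ⟨(g2 x U hU).2.1, (g2 x U hU).2.2.1⟩
    refine ⟨O, (mem_unionName _ U O).2 ⟨_, mem_fam (fun k : ℕ => sepName τ fun U O =>
      ∀ x ∈ L n, ∃ V, InCov (f.val U) n V ∧ Box x k O V) b U, (mem_sepName _ _ U O).2
        ⟨g3, fun x hx => ⟨_, (g2 ⟨x, hx⟩ U hU).1, fun w z' g6 g7 => ?_⟩⟩⟩, g4⟩
    exact (g2 ⟨x, hx⟩ U hU).2.2.2 w z' (cylN_sub (Agree.refl _ _) (hb ⟨_, rfl⟩) U w g6)
      (g5 _ (Finset.mem_univ _) z' g7)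

theorem select {p : PP} (h0 : Forces p fun U => IsFreeUltra Mod.mem (CC.val U) (u.val U))
    (h1 : Forces p fun U => IsTopOn Mod.mem (Z.val U) (τ.val U))
    (h2 : Forces p fun U => IsProd Mod.mem ((setN ρX).val U) ((topN (setN ρX)).val U) (Z.val U)
      (τ.val U) (S.val U) (T.val U))
    (h3 : Forces p fun U => IsCovers Mod.mem (CC.val U) (S.val U) (T.val U) (f.val U))
    (h4 : Forces p fun U => UMenger Mod.mem (CC.val U) (u.val U) (Z.val U) (τ.val U))
    {L : ℕ → Finset (Set ℕ)} (hL : ∀ n, ∀ x ∈ L n, ρX p x) :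
    ∃ r ≤ p, ∃ (K : ℕ → ℕ) (N : ℕ → Finset (ℕ × Set ℕ)) (V : ℕ → ℕ × Set ℕ → Name PP),
      (∀ n, ∀ i ∈ N n, Forces r fun U => InCov (f.val U) n ((V n i).val U)) ∧
      ∀ r' ≤ r, ∀ z : Name PP, (Forces r' fun U => Mod.mem (z.val U) (Z.val U)) →
        ∃ r'' ≤ r', ∃ B, Ul u r'' B ∧ ∀ n ∈ B, ∀ x ∈ L n, ∀ x', Agree (K n) x x' → ρX r'' x' →
          Forces r'' fun U => ∃ i ∈ N n,
            App Mod.mem ((V n i).val U) ((ptN x').val U) (z.val U) := by
  classical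
  obtain ⟨g, hg⟩ := ((h4.and (covers_ind h1 h2 h3 hL)).imp fun U h => h.1 _ h.2).exists_name
  obtain ⟨r, hr, g1⟩ := hσ.exists_forall p (fun (n : ℕ) r => ∃ (K : ℕ) (N : Finset (ℕ × Set ℕ))
      (V : ℕ × Set ℕ → Name PP), (∀ i ∈ N, Forces r fun U => InCov (f.val U) n ((V i).val U)) ∧
      Forces r fun U => ∀ z, InStep Mod.mem (g.val U) ((natName n).val U) z → ∀ x ∈ L n,
        ∃ i ∈ N, ∀ w, Mod.mem w ((cylN ρX x K).val U) → App Mod.mem ((V i).val U) w z)
    (fun _ _ _ h ⟨K, N, V, h1, h2⟩ => ⟨K, N, V, fun i hi => (h1 i hi).mono h, h2.mono h⟩)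
    fun n r hr => by
      obtain ⟨r1, hr1, s, a, g1, g2⟩ := dec_choice ((hg.imp fun _ h => h.1).mono hr) n
      obtain ⟨r2, hr2, g3⟩ := hσ.exists_forall r1 (fun (i : ℕ) r => ∃ k, i ∈ s →
        Forces r fun U => ∀ x ∈ L n, ∃ V, InCov (f.val U) n V ∧ Box x k ((a i).val U) V)
        (fun _ _ _ h ⟨k, h'⟩ => ⟨k, fun hi => (h' hi).mono h⟩) fun i r hr => by
          by_cases hi : i ∈ s
          · obtain ⟨y, hy⟩ := (((g1 i hi).mono hr).imp fun U h =>
              (mem_unionName _ U _).1 (h _ (app_seq.2 rfl))).exists_name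
            obtain ⟨r', hr', k, hk⟩ := (hy.imp fun _ h => h.1).exists_fam
            refine ⟨r', hr', k, fun _ U hU => ?_⟩
            have := (hy.mono hr' U hU).2
            rw [hk U hU] at this
            exact ((mem_sepName _ _ U _).1 this).2
          · exact ⟨r, le_rfl, 0, fun h => absurd h hi⟩
      choose k hk using g3
      choose V hV using fun i : ℕ × Set ℕ => max_principle (P := PP) fun U V =>
        InCov (f.val U) n V ∧ Box i.2 (k i.1) ((a i.1).val U) V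
      refine ⟨r2, hr2.trans hr1, s.sup k, s ×ˢ L n, V, fun i hi U hU => ?_, fun U hU z hz x hx => ?_⟩
      · rw [Finset.mem_product] at hi
        exact (hV i U (hk i.1 hi.1 U hU i.2 hi.2)).1
      · obtain ⟨i, hi, g4⟩ := g2.mono hr2 U hU z hz
        exact ⟨(i, x), Finset.mem_product.2 ⟨hi, hx⟩, fun w hw => (hV (i, x) U
          (hk i hi U hU x hx)).2 w z (cylN_sub (Agree.refl _ _) (Finset.le_sup hi) U w hw) g4⟩
  choose K N V g2 g3 using g1
  refine ⟨r, hr, K, N, V, g2, fun r' hr' z hz => ?_⟩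
  obtain ⟨B, hB⟩ := (((hg.mono (hr'.trans hr)).and hz).imp fun U h => h.1.2 _ h.2).exists_name
  obtain ⟨s, hs, A, hA⟩ := dec_natSet (B := B)
    (((h0.mono (hr'.trans hr)).and hB).imp fun U h => (h.1.1 _ h.2.1).1)
  refine ⟨s, hs, A, ((hB.mono hs).and hA).imp fun U h => h.2 ▸ h.1.1,
    fun n hn x hx x' g4 g5 U hU => ?_⟩
  obtain ⟨i, hi, g6⟩ := (g3 n).mono (hs.trans hr') U hU _ (((hB.mono hs U hU).2 _).1
    (by rw [hA U hU]; exact mem_natSetN.2 hn)) x hx
  exact ⟨i, hi, g6 _ (forces_mem_setN (ρ := fun q x' => ρX q x' ∧ Agree _ _ x') ⟨g5, g4⟩ U hU)⟩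

end

theorem productive (U : Gen PP) (u Z τ S T : Mod U) (h0 : IsFreeUltra Mod.mem (CC.val U) u)
    (h1 : IsTopOn Mod.mem Z τ) (h4 : UMenger Mod.mem (CC.val U) u Z τ)
    (h2 : IsProd Mod.mem ((setN ρX).val U) ((topN (setN ρX)).val U) Z τ S T) :
    UMenger Mod.mem (CC.val U) u S T := by
  classical
  intro f h3
  obtain ⟨u, rfl⟩ := u.exists_name
  obtain ⟨Z, rfl⟩ := Z.exists_name
  obtain ⟨τ, rfl⟩ := τ.exists_name
  obtain ⟨S, rfl⟩ := S.exists_name
  obtain ⟨T, rfl⟩ := T.exists_name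
  obtain ⟨f, rfl⟩ := f.exists_name
  have h := And.intro h0 (And.intro h1 (And.intro h2 (And.intro h3 h4)))
  clear h0 h1 h2 h3 h4
  revert U
  refine by_forcing fun p hp => ?_
  have h0 := hp.imp fun _ h => h.1
  have h1 := hp.imp fun _ h => h.2.1
  have h2 := hp.imp fun _ h => h.2.2.1
  have h3 := hp.imp fun _ h => h.2.2.2.1
  have h4 := hp.imp fun _ h => h.2.2.2.2
  clear hp
  obtain ⟨q, hq, g, g1, g2⟩ := gap p (Ul u) (fun _ _ _ h h' => Forces.mono h' h)
    (fun q hq A B h h' => h.ev (h0.mono hq) h') fun q hq A => Ul.dec (h0.mono hq) A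
  obtain ⟨r1, hr1, K1, N1, V1, a1, a2⟩ := select (h0.mono hq) (h1.mono hq) (h2.mono hq)
    (h3.mono hq) (h4.mono hq)
    (L := fun n => (Finset.range (g n)).powerset.image fun s : Finset ℕ => (s : Set ℕ))
    (fun n x hx => by
      obtain ⟨s, -, rfl⟩ := Finset.mem_image.1 hx
      exact Or.inl s.finite_toSet)
  obtain ⟨r2, hr2, g3⟩ := g2 r1 hr1 K1
  have hp2 : r2 ≤ p := hr2.trans (hr1.trans hq)
  obtain ⟨E, e1, e2, e3⟩ := exists_exhaust (r2.cD.image fun t => t.y \ t.e)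
  obtain ⟨r3, hr3, K2, N2, V2, b1, b2⟩ := select (h0.mono hp2) (h1.mono hp2) (h2.mono hp2)
    (h3.mono hp2) (h4.mono hp2) (L := fun n => (e2 n).toFinset) (fun n x hx => by
      obtain ⟨t, ht, rfl⟩ := e1 n ((e2 n).mem_toFinset.1 hx)
      exact Or.inr ⟨t, ht, rfl⟩)
  have hp3 : r3 ≤ p := hr3.trans hp2
  let N : ℕ → Finset ((ℕ × Set ℕ) ⊕ (ℕ × Set ℕ)) := fun n => (N1 n).disjSum (N2 n)
  let V : ℕ → (ℕ × Set ℕ) ⊕ (ℕ × Set ℕ) → Name PP := fun n => Sum.elim (V1 n) (V2 n)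
  have hch := isChoice_selN (N := N) (V := V) (h3.mono hp3) (by
    rintro n (i | i) hi
    · exact (a1 n i (Finset.inl_mem_disjSum.1 hi)).mono (hr3.trans hr2)
    · exact b1 n i (Finset.inr_mem_disjSum.1 hi))
  refine ⟨r3, hp3, Forces.imp (hch.and ?_) fun U h => ⟨_, h⟩⟩
  refine forces_forall fun w => forces_imp fun r4 hr4 hw => ?_
  obtain ⟨x, c1⟩ := (((h2.mono (hr4.trans hp3)).and hw).imp fun U h => (h.1.1 _).1 h.2).exists_name
  obtain ⟨z, c2⟩ := c1.exists_name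
  obtain ⟨r5, hr5, x', c3, c4⟩ := exists_pt monX (c2.imp fun _ h => h.2.1)
  have hz : Forces r5 fun U => Mod.mem (z.val U) (Z.val U) := (c2.mono hr5).imp fun _ h => h.2.2
  have h53 : r5 ≤ r3 := hr5.trans hr4
  have hstep : ∀ r ≤ r5, ∀ n, ∀ U : Gen PP, Iic r ∈ U.1 → ∀ i ∈ N n,
      App Mod.mem ((V n i).val U) ((ptN x').val U) (z.val U) →
      InStep Mod.mem ((selN N V).val U) ((natName n).val U) (w.val U) := by
    rintro r hr n U hU i hi ⟨w', c5, c6⟩
    have c7 := (c2.mono (hr.trans hr5) U hU).1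
    rw [c4.mono hr U hU] at c7
    exact inStep_selN hi ((isZFC U).pair_unique c6 c7 ▸ c5)
  have key1 : ∀ r ≤ r5, ∀ B0, Ul u r B0 → (∀ n ∈ B0, ∀ m ∈ x', g n ≤ m → K1 n ≤ m) →
      ∃ s ≤ r5, ∃ B, Ul u s B ∧ ∀ n ∈ B, Forces s fun U =>
        InStep Mod.mem ((selN N V).val U) ((natName n).val U) (w.val U) := by
    intro r hr B0 d1 d2
    obtain ⟨s, hs, B, d3, d4⟩ := a2 r (hr.trans (h53.trans (hr3.trans hr2))) z (hz.mono hr)
    refine ⟨s, hs.trans hr, B ∩ B0, d3.inter (h0.mono (hs.trans (hr.trans (h53.trans hp3))))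
      (Forces.mono d1 hs), fun n hn U hU => ?_⟩
    obtain ⟨i, hi, d5⟩ := d4 n hn.1 (((Finset.range (g n)).filter (· ∈ x') : Finset ℕ) : Set ℕ)
      (Finset.mem_image.2 ⟨_, Finset.mem_powerset.2 (Finset.filter_subset _ _), rfl⟩) x'
      (fun m hm => by
        simp only [Finset.coe_filter, Finset.mem_range, mem_ofPred_eq]
        exact ⟨fun h => h.2, fun h => ⟨not_le.1 fun h' => absurd (d2 n hn.2 m h h')
          (not_le.2 hm), h⟩⟩) (monX _ _ _ (hs.trans hr) c3) U hU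
    exact hstep s (hs.trans hr) n U hU (Sum.inl i) (Finset.inl_mem_disjSum.2 hi) d5
  have key : ∃ s ≤ r5, ∃ B, Ul u s B ∧ ∀ n ∈ B, Forces s fun U =>
      InStep Mod.mem ((selN N V).val U) ((natName n).val U) (w.val U) := by
    have hu5 := h0.mono (h53.trans hp3)
    rcases id c3 with hfin | ⟨t, ht, rfl⟩
    · obtain ⟨b, hb⟩ := hfin.bddAbove
      obtain ⟨r, hr, d1⟩ := Ul.dec hu5 univ
      have d2 : Ul u r (Ioi b) := d1.elim
        (fun d => d.ev (hu5.mono hr) ((eventually_gt_atTop b).mono fun _ h _ => h))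
        fun d => d.ev (hu5.mono hr) ((eventually_gt_atTop b).mono fun _ h _ => h)
      exact key1 r hr _ d2 fun n hn m hm d3 => absurd ((g1 n).trans (d3.trans (hb hm)))
        (not_le.2 hn)
    · by_cases ht2 : t ∈ r2.D
      · obtain ⟨s, hs, B, d3, d4⟩ := b2 r5 h53 z hz
        refine ⟨s, hs, B ∩ {n | t.y \ t.e ∈ E n}, d3.ev (hu5.mono hs) ((e3 {t.y \ t.e}
          (singleton_subset_iff.2 ⟨t, ht2, rfl⟩) (finite_singleton _)).mono
            fun n h hn => ⟨hn, h rfl⟩), fun n hn U hU => ?_⟩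
        obtain ⟨i, hi, d5⟩ := d4 n hn.1 _ ((e2 n).mem_toFinset.2 hn.2) _ (Agree.refl _ _)
          (monX _ _ _ hs c3) U hU
        exact hstep s hs n U hU (Sum.inr i) (Finset.inr_mem_disjSum.2 hi) d5
      · obtain ⟨r, hr, d1⟩ := g3 r5 (h53.trans hr3) t ht ht2
        exact key1 r hr _ d1 fun n hn m hm => hn m hm.1
  obtain ⟨s, hs, B, d1, d2⟩ := key
  have d3 : Forces s fun U => ∀ n, Mod.mem n ((natSetN B).val U) →
      InStep Mod.mem ((selN N V).val U) n (w.val U) :=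
    forces_forall_mem_fam fun (i : B) r hr => ⟨r, le_rfl, (d2 i i.2).mono hr⟩
  refine ⟨s, hs.trans hr5, fun U hU => ?_⟩
  obtain ⟨B', hB'⟩ := Mod.sep (fun U n => InStep Mod.mem ((selN N V).val U) n (w.val U)) U
    (CC.val U).w
  refine ⟨B', (h0.mono (hs.trans (h53.trans hp3)) U hU).2.1 _ _ (d1 U hU)
    (fun n hn => (hB' n).2 ⟨natSetN_sub_w B U n hn, d3 U hU n hn⟩) fun n hn => ((hB' n).1 hn).1,
    fun n => ⟨fun hn => ((hB' n).1 hn).2, fun hn => (hB' n).2 ⟨?_, hn⟩⟩⟩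
  obtain ⟨G, _, d4, -⟩ := hn
  exact ((isZFC U).app_val (hch.mono (hs.trans h53) U hU).1 d4).1

end Pool.Agent.P.MP_d1514d_gt
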