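import Pool.Agent.P.MP_d1514d_gt.Names

set_option autoImplicit false
set_option synthInstance.maxSize 100000

/-! The generic set `Y` is Scheepers and `X × Y` is not Menger. -/

open Set Filter Pool.Agent.Lib.PosetForcing

namespace Pool.Agent.P.MP_d1514d_gt

/-- points of `Y` -/
def ρY (q : PP) (x : Set ℕ) : Prop := ∃ t ∈ q.D, x = t.y

/-- points of `X` -/
def ρX (q : PP) (x : Set ℕ) : Prop := x.Finite ∨ ∃ t ∈ q.D, x = t.y \ t.e

theorem monY : Mon ρY := fun _ _ _ h ⟨t, ht, e⟩ => ⟨t, h.1 ht, e⟩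

theorem monX : Mon ρX := fun _ _ _ h h' => h'.imp id fun ⟨t, ht, e⟩ => ⟨t, h.1 ht, e⟩

theorem exists_finset_agree (x : Set ℕ) (k : ℕ) :
    ∃ s ∈ (Finset.range k).powerset, Agree k x (s : Set ℕ) := by
  classical
  exact ⟨(Finset.range k).filter (· ∈ x), Finset.mem_powerset.2 (Finset.filter_subset _ _),
    fun i hi => by simp [hi]⟩

theorem scheepers (U : Gen PP) :
    Scheepers Mod.mem (CC.val U) ((setN ρY).val U) ((topN (setN ρY)).val U) := by
  classical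
  intro f
  obtain ⟨f, rfl⟩ := f.exists_name
  revert U
  refine by_forcing fun p hp => ?_
  let Φ : ℕ → Set ℕ → ℕ → ∀ U : Gen PP, Mod U → Prop := fun n x k U V =>
    InCov (f.val U) n V ∧ IsSub Mod.mem ((cylN ρY x k).val U) V
  have hΦ : ∀ n x x' k k', Agree k x x' → k ≤ k' → ∀ U, (∃ V, Φ n x k U V) → ∃ V, Φ n x' k' U V :=
    fun n x x' k k' h1 h2 U ⟨V, h3, h4⟩ => ⟨V, h3, fun z hz => h4 z (cylN_sub h1 h2 U z hz)⟩
  obtain ⟨q, hq, hdec⟩ := hσ.exists_forall p (fun (i : ℕ × Finset ℕ × ℕ) q =>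
    (Forces q fun U => ∃ V, Φ i.1 i.2.1 i.2.2 U V) ∨
      Forces q fun U => ¬ ∃ V, Φ i.1 i.2.1 i.2.2 U V)
    (fun _ _ _ h h' => h'.imp (·.mono h) (·.mono h)) fun _ q _ => exists_decide _ q
  obtain ⟨q', hq', π, hπ, hsm⟩ := q.exists_prom' (fun n x k => Forces q fun U => ∃ V, Φ n x k U V)
    (fun n x x' k k' h1 h2 h => h.imp (hΦ n x x' k k' h1 h2)) (by
      intro r hr n t ht
      obtain ⟨V, hV⟩ := (((hp.mono (hr.trans hq)).and (forces_mem_setN (ρ := ρY)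
        ⟨t, ht, rfl⟩)).imp fun U h => h.1.exists_mem n h.2).exists_name
      obtain ⟨r', hr', k, hk⟩ := exists_cyl (hV.imp fun _ h => h.2.1) (hV.imp fun _ h => h.2.2)
      obtain ⟨s, -, hs⟩ := exists_finset_agree t.y k
      rcases hdec (n, s, k) with h | h
      · exact ⟨k, h.imp (hΦ n _ _ k k hs.symm le_rfl)⟩
      · exact (Forces.not_false (p := r') fun U hU => h.mono (hr'.trans hr) U hU
          (hΦ n _ _ k k hs le_rfl U ⟨_, (hV.mono hr' U hU).1, hk U hU⟩)).elim)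
  choose V hV using fun n (s : Finset ℕ) => max_principle (Φ n s (π.h n))
  let N : ℕ → Finset (Finset ℕ) := fun n => (Finset.range (π.h n)).powerset.filter fun s =>
    Forces q fun U => ∃ V, Φ n s (π.h n) U V
  have hN : ∀ n, ∀ s ∈ N n, Forces q' fun U => Φ n s (π.h n) U ((V n s).val U) := fun n s hs =>
    ((Finset.mem_filter.1 hs).2.mono hq').imp (hV n s)
  refine ⟨q', hq'.trans hq, Forces.imp (Forces.and (isChoice_selN (N := N) (V := V)
    (hp.mono (hq'.trans hq)) fun n s hs => (hN n s hs).imp fun _ h => h.1) ?_) fun U h => ⟨_, h⟩⟩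
  refine forces_forall fun A => forces_imp fun r hr h1 => ⟨r, le_rfl, forces_imp fun r2 hr2 h2 => ?_⟩
  obtain ⟨r3, hr3, s, a, h3⟩ := fin_cover (C := CC) (h1.mono hr2)
  obtain ⟨r4, hr4, h4⟩ := hσ.exists_forall r3 (fun (i : s) r => ∃ t ∈ r.D,
    Forces r fun U => (a i).val U = (ptN t.y).val U)
    (fun _ _ _ h ⟨t, ht, h'⟩ => ⟨t, h.1 ht, h'.mono h⟩) fun i r hr => by
      obtain ⟨r', hr', x, ⟨t, ht, rfl⟩, h5⟩ := exists_pt monY (a := a i) (p := r) fun U hU =>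
        h2.mono (hr.trans hr3) U hU _ ((h3.mono hr U hU _).2 ⟨i, i.2, rfl⟩)
      exact ⟨r', hr', t, ht, h5⟩
  choose t ht h5 using h4
  have h6 : r4 ≤ q' := hr4.trans (hr3.trans (hr2.trans hr))
  obtain ⟨n, hn, -⟩ := r4.keeps π (h6.2.1 hπ) (range t) (by rintro _ ⟨i, rfl⟩; exact ht i)
    (finite_range t) 0 0
  refine ⟨r4, hr4.trans hr3, fun U hU => ⟨_, nat_mem_w n U, fun x hx => ?_⟩⟩
  obtain ⟨i, hi, rfl⟩ := (h3.mono hr4 U hU _).1 hx
  obtain ⟨s', hs', h7⟩ := exists_finset_agree (t ⟨i, hi⟩).y (π.h n)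
  have h8 : s' ∈ N n := Finset.mem_filter.2 ⟨hs',
    (hsm n _ (hn _ ⟨⟨i, hi⟩, rfl⟩)).imp (hΦ n _ _ _ _ h7 le_rfl)⟩
  refine inStep_selN h8 (((hN n s' h8).mono h6 U hU).2 _ ?_)
  rw [h5 ⟨i, hi⟩ U hU]
  exact forces_mem_setN (ρ := fun q x' => ρY q x' ∧ Agree _ _ x') ⟨⟨_, ht _, rfl⟩, h7.symm⟩ U hU

/-- open sets of the product -/
noncomputable def ON (n k : ℕ) : Name PP := graphName
  (ι := {z : PP × Set ℕ × Set ℕ // ρX z.1 z.2.1 ∧ ρY z.1 z.2.2 ∧
    n < ((z.2.2 \ z.2.1) ∩ Iio k).ncard})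
  (fun z => ptN z.1.2.1) (fun z => ptN z.1.2.2) fun z => z.1.1

theorem forces_app_ON {n k : ℕ} {p : PP} {s y : Set ℕ} (h1 : ρX p s) (h2 : ρY p y)
    (h3 : n < ((y \ s) ∩ Iio k).ncard) :
    Forces p fun U => App Mod.mem ((ON n k).val U) ((ptN s).val U) ((ptN y).val U) :=
  forces_app_graph (ι := {z : PP × Set ℕ × Set ℕ // ρX z.1 z.2.1 ∧ ρY z.1 z.2.2 ∧
    n < ((z.2.2 \ z.2.1) ∩ Iio k).ncard}) (c := fun z => z.1.1) ⟨(p, s, y), h1, h2, h3⟩ le_rfl

theorem infinite_diff {p : PP} {s y : Set ℕ} (h1 : ρX p s) (h2 : ρY p y) : (y \ s).Infinite := by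
  obtain ⟨t, ht, rfl⟩ := h2
  have hi : t.y.Infinite := (p.inf t ht).mono (p.sub t ht)
  rcases h1 with h1 | ⟨t', ht', rfl⟩
  · exact hi.sdiff h1
  · by_cases h : t = t'
    · subst h
      exact (p.inf t ht).mono fun m hm => ⟨p.sub t ht hm, fun h => h.2 hm⟩
    · exact (hi.sdiff (p.ad t ht t' ht' h)).mono fun m hm => ⟨hm.1, fun h => hm.2 ⟨hm.1, h.1⟩⟩

theorem exists_lt_ncard {A : Set ℕ} (h : A.Infinite) (n : ℕ) : ∃ k, n < (A ∩ Iio k).ncard := by
  obtain ⟨s, hs, h1⟩ := h.exists_subset_card_eq (n + 1)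
  obtain ⟨b, hb⟩ := s.finite_toSet.bddAbove
  refine ⟨b + 1, ?_⟩
  have : (s : Set ℕ).ncard ≤ (A ∩ Iio (b + 1)).ncard := ncard_le_ncard
    (fun m hm => ⟨hs hm, Nat.lt_succ_of_le (hb hm)⟩) ((finite_Iio _).inter_of_right _)
  rw [ncard_coe_finset] at this
  omega

/-- the product `X × Y` -/
noncomputable def SN : Name PP := prodN (setN ρX) (setN ρY)

/-- the topology of `X × Y` -/
noncomputable def TN : Name PP :=
  ptopN (setN ρX) (topN (setN ρX)) (setN ρY) (topN (setN ρY))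

theorem ON_open (n k : ℕ) (U : Gen PP) : Mod.mem ((ON n k).val U) (TN.val U) := by
  refine ((isProd _ _ _ _ U).2 _).2 ⟨?_, ?_⟩
  · exact forall_mem (b := ON n k) (Φ := fun U z => Mod.mem z (SN.val U)) (fun i q hq =>
      ⟨q, le_rfl, (((forces_mem_setN i.2.1).and (forces_mem_setN i.2.2.1)).mono hq).imp fun U h =>
        (mem_prodN _ _ U _).2 ⟨_, _, isPair_pairName _ _ U, h⟩⟩) U
  · revert U
    refine of_forces_all fun p => ⟨p, le_rfl, forces_forall_app_graph ?_⟩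
    rintro ⟨⟨p', s, y⟩, h1, h2, h3⟩ q - hq
    have h4 : Forces q fun U => ∀ x', Mod.mem x' ((cylN ρX s k).val U) →
        ∀ y', Mod.mem y' ((cylN ρY y k).val U) → App Mod.mem ((ON n k).val U) x' y' := by
      refine forces_forall_mem (b := cylN ρX s k) fun i r _ hi => ⟨r, le_rfl,
        forces_forall_mem (b := cylN ρY y k) fun j r' hr' hj => ⟨r', le_rfl, ?_⟩⟩
      refine forces_app_ON (monX _ _ _ (hr'.trans hi) i.2.1) (monY _ _ _ hj j.2.1) ?_
      convert h3 using 2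
      ext m
      have g1 := i.2.2 m
      have g2 := j.2.2 m
      simp only [mem_inter_iff, Set.mem_sdiff, mem_Iio]
      tauto
    refine ⟨q, le_rfl, fun U hU => ⟨_, _, cylN_open ρX s k U, cylN_open ρY y k U, ?_, ?_,
      fun x' y' g1 g2 => h4 U hU x' g1 y' g2⟩⟩
    · exact (forces_mem_setN (ρ := fun q x' => ρX q x' ∧ Agree k s x')
        ⟨h1, Agree.refl _ _⟩).mono hq U hU
    · exact (forces_mem_setN (ρ := fun q x' => ρY q x' ∧ Agree k y x')
        ⟨h2, Agree.refl _ _⟩).mono hq U hU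

/-- the bad sequence of covers -/
noncomputable def fN : Name PP := seqName fun n => fam fun k : ℕ => ON n k

theorem covers_fN (U : Gen PP) : IsCovers Mod.mem (CC.val U) (SN.val U) (TN.val U) (fN.val U) := by
  revert U
  refine of_forces_all fun p => ⟨p, le_rfl, forces_isFunOn_seq (V := fun U F =>
    IsSub Mod.mem F (TN.val U) ∧ ∀ x, Mod.mem x (SN.val U) → ∃ V, Mod.mem V F ∧ Mod.mem x V)
    fun n => Forces.of_forall (fun U => ⟨forall_mem_fam (Φ := fun U z => Mod.mem z (TN.val U))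
      (fun k U => ON_open n k U) U, fun z hz => ?_⟩) p⟩
  obtain ⟨x, y, h1, h2, h3⟩ := (mem_prodN _ _ U _).1 hz
  have := forall_mem (b := setN ρX) (Φ := fun U x => ∀ y, Mod.mem y ((setN ρY).val U) →
    ∃ V, Mod.mem V ((fam fun k : ℕ => ON n k).val U) ∧ App Mod.mem V x y) (fun i q hq =>
      ⟨q, le_rfl, forces_forall_mem (b := setN ρY) fun j r hr hj => by
        have g1 := monX _ _ _ (hr.trans hq) i.2
        have g2 := monY _ _ _ hj j.2
        obtain ⟨k, hk⟩ := exists_lt_ncard (infinite_diff g1 g2) n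
        exact ⟨r, le_rfl, (forces_app_ON g1 g2 hk).imp fun U h =>
          ⟨_, mem_fam (fun k : ℕ => ON n k) k U, h⟩⟩⟩) U x h2 y h3
  obtain ⟨V, h4, w, h5, h6⟩ := this
  exact ⟨V, h4, (isZFC U).pair_unique h6 h1 ▸ h5⟩

theorem not_menger (U : Gen PP) : ¬ Menger Mod.mem (CC.val U) (SN.val U) (TN.val U) := by
  intro h
  obtain ⟨g, h1, h2⟩ := h _ (covers_fN U)
  obtain ⟨g, rfl⟩ := g.exists_name
  clear h
  revert U
  refine by_forcing2 (Ψ := fun _ => False) fun p h1 h2 => ?_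
  exfalso
  obtain ⟨q, hq, h3⟩ := hσ.exists_forall p (fun (n : ℕ) r => ∃ H, Forces r fun U => ∀ x,
    InStep Mod.mem (g.val U) ((natName n).val U) x → ∃ k < H, Mod.mem x ((ON n k).val U))
    (fun _ _ _ h ⟨H, h'⟩ => ⟨H, h'.mono h⟩) fun n r hr => by
      obtain ⟨r1, hr1, s, a, g1, g2⟩ := dec_choice (h1.mono hr) n
      obtain ⟨r2, hr2, g3⟩ := hσ.exists_forall r1 (fun (i : s) r => ∃ k,
        Forces r fun U => (a i).val U = (ON n k).val U)
        (fun _ _ _ h ⟨k, h'⟩ => ⟨k, h'.mono h⟩) fun i r hr =>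
          (((g1 i i.2).mono hr).imp fun U h => h _ (app_seq.2 rfl)).exists_fam
      choose k hk using g3
      obtain ⟨b, hb⟩ := (finite_range k).bddAbove
      refine ⟨r2, hr2.trans hr1, b + 1, fun U hU x hx => ?_⟩
      obtain ⟨i, hi, g4⟩ := g2.mono hr2 U hU x hx
      exact ⟨k ⟨i, hi⟩, Nat.lt_succ_of_le (hb ⟨_, rfl⟩), hk ⟨i, hi⟩ U hU ▸ g4⟩
  choose H hH using h3
  obtain ⟨r, hr, t, ht, -, h4, -⟩ := q.exists_ext id H (empty_subset _) finite_empty 0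
    (empty_subset _)
  have h5 : Forces r fun U => Mod.mem ((pairName (ptN (t.y \ t.e)) (ptN t.y)).val U) (SN.val U) :=
    ((forces_mem_setN (ρ := ρX) (Or.inr ⟨t, ht, rfl⟩)).and
      (forces_mem_setN (ρ := ρY) ⟨t, ht, rfl⟩)).imp fun U h =>
        (mem_prodN _ _ U _).2 ⟨_, _, isPair_pairName _ _ U, h⟩
  obtain ⟨n, hn⟩ := (((h2.mono (hr.trans hq)).and h5).imp fun U h => h.1 _ h.2).exists_name
  obtain ⟨r1, hr1, m, hm⟩ := dec_nat (C := CC) (a := n) (((h1.mono (hr.trans hq)).and hn).imp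
    fun U ⟨g1, G, V, g2, _⟩ => ((isZFC U).app_val g1.1 g2).1)
  obtain ⟨U, hU⟩ := exists_gen r1
  obtain ⟨k, hk, h6⟩ := (hH m).mono (hr1.trans hr) U hU _ (hm U hU ▸ hn.mono hr1 U hU)
  obtain ⟨r2, -, h7⟩ := exists_forces_of (Φ := fun U => App Mod.mem ((ON m k).val U)
    ((ptN (t.y \ t.e)).val U) ((ptN t.y).val U)) hU ⟨_, h6, isPair_pairName _ _ U⟩
  obtain ⟨r3, -, ⟨⟨p', s, y⟩, g1, g2, h8⟩, -, h9⟩ := h7.exists_app_graph
  obtain rfl : t.y \ t.e = s := ptN_inj (h9.imp fun _ h => h.1)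
  obtain rfl : t.y = y := ptN_inj (h9.imp fun _ h => h.2)
  refine absurd (h8.trans_le (ncard_le_ncard (t := t.e ∩ Iio (H m)) (fun i hi => ⟨?_, hi.2.trans hk⟩)
    ((finite_Iio _).inter_of_right _))) (not_lt.2 (h4 m))
  by_contra h
  exact hi.1.2 ⟨hi.1.1, h⟩

end Pool.Agent.P.MP_d1514d_gt
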